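import Pool.Agent.Lib.LF.Z.Spec

/-!
# C43, block Z: one copy (assembly) (helper56)
-/

set_option autoImplicit false

namespace Pool.Agent.LF.Z

namespace CpAux

variable {K X G : Type} [Field K] [LinearOrder K] [IsStrictOrderedRing K] [Group G]
  [MulAction G X] [Nonempty X] {S : AddSubgroup K} {d : X → X → K}

theorem pair (hMx : S_Mx) (hOv : S_Ov) (hSg : S_Sg) (h : Ac S d G) (x y z : G)
    (hxy : x * y ≠ y * x) (hz : z ≠ 1)
    (h1 : ∃ u, u * (cm x y * z) * u⁻¹ = x * y)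
    (h2 : ∃ u, u * (cm x y * z⁻¹) * u⁻¹ = cm x y * z) :
    TL d z < TL d (x * y) ∧ ∃ p q : X, p ≠ q ∧ (TL d (x * y) + TL d z) / 2 ≤ d p q ∧
      ((TL d x + TL d y = TL d (x * y) ∧ Fw d x p q ∧ Fw d y p q) ∨
      TL d y = TL d (x * y) + TL d x ∨ TL d x = TL d (x * y) + TL d y) := by
  have hx : x ≠ 1 := fun e => hxy (by rw [e]; simp)
  have hy : y ≠ 1 := fun e => hxy (by rw [e]; simp)
  have hP : x * y ≠ 1 := fun e => hxy (by rw [e, eq_inv_of_mul_eq_one_right e]; simp)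
  have hcm : cm x y = (y * x)⁻¹ * (x * y) := by
    unfold cm
    rw [mul_inv_rev]
    group
  have hQ : TL d (y * x) = TL d (x * y) := by
    rw [← h.tl_conj (x * y) x⁻¹]
    congr 1
    group
  have hp : cm x y ≠ 1 := by
    rw [hcm]
    intro e
    exact hxy (by rw [inv_mul_eq_one] at e; exact e.symm)
  have e1 : TL d (cm x y * z) = TL d (x * y) := by
    obtain ⟨u, hu⟩ := h1
    rw [← hu, h.tl_conj]
  have e2 : TL d (cm x y * z⁻¹) = TL d (x * y) := by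
    obtain ⟨u, hu⟩ := h2
    rw [← e1, ← hu, h.tl_conj]
  have e3 := hMx K X G S d h (cm x y) z hp hz
  rw [e1, e2, max_self] at e3
  have e4 := h.tl_pos hz
  have e5 := h.tl_pos hp
  have e6 : TL d ((y * x)⁻¹ * (x * y)) = TL d (cm x y) := by rw [hcm]
  obtain ⟨p, q, f1, f2, f3, f4⟩ := hOv K X G S d h (x * y) (y * x) hP hxy hQ
    (by rw [e6]; linarith)
  rw [e6] at f3
  have hpq : p ≠ q := by
    intro e
    subst e
    rw [h.self] at f3
    linarith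
  refine ⟨by linarith, p, q, hpq, by linarith, ?_⟩
  exact hSg K X G S d h x y p q hx hy hP hpq f1 f2

end CpAux

theorem pCp (hMx : S_Mx) (hOv : S_Ov) (hSg : S_Sg) (hPr : S_Pr) (hTr : S_Tr) (hFn : S_Fn) :
    S_Cp := by
  intro K X G _ _ _ _ _ _ S d h a hnc ht hs
  have hn : ∀ i, a i ≠ 1 := by
    intro i e
    have h1 : i ≠ i + 1 := by fin_cases i <;> decide
    exact hnc i (i + 1) h1 (by rw [e]; simp)
  have h0 := CpAux.pair hMx hOv hSg h (a 1) (a 2) (a 0) (hnc 1 2 (by decide)) (hn 0) (ht 0) (hs 0)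
  have h1 := CpAux.pair hMx hOv hSg h (a 0) (a 2) (a 1) (hnc 0 2 (by decide)) (hn 1) (ht 1) (hs 1)
  have h2 := CpAux.pair hMx hOv hSg h (a 0) (a 1) (a 2) (hnc 0 1 (by decide)) (hn 2) (ht 2) (hs 2)
  have p0 := h.tl_pos (hn 0)
  have p1 := h.tl_pos (hn 1)
  have p2 := h.tl_pos (hn 2)
  obtain ⟨u0, x₂, y₂, n2, s2, c2⟩ := h0
  obtain ⟨u1, x₃, y₃, n3, s3, c3⟩ := h1
  obtain ⟨u2, x₁, y₁, n1, s1, c1⟩ := h2
  have v0 : TL d (a 1 * a 2) ≤ TL d (a 1) + TL d (a 2) := by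
    rcases c2 with ⟨c, -⟩ | c | c <;> linarith
  have v1 : TL d (a 0 * a 2) ≤ TL d (a 0) + TL d (a 2) := by
    rcases c3 with ⟨c, -⟩ | c | c <;> linarith
  have v2 : TL d (a 0 * a 1) ≤ TL d (a 0) + TL d (a 1) := by
    rcases c1 with ⟨c, -⟩ | c | c <;> linarith
  obtain ⟨w0, fb2, fc2⟩ : TL d (a 1) + TL d (a 2) = TL d (a 1 * a 2) ∧ Fw d (a 1) x₂ y₂ ∧
      Fw d (a 2) x₂ y₂ := by
    rcases c2 with c | c | c
    · exact c
    · exfalso; linarith
    · exfalso; linarith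
  obtain ⟨w1, fa3, fc3⟩ : TL d (a 0) + TL d (a 2) = TL d (a 0 * a 2) ∧ Fw d (a 0) x₃ y₃ ∧
      Fw d (a 2) x₃ y₃ := by
    rcases c3 with c | c | c
    · exact c
    · exfalso; linarith
    · exfalso; linarith
  obtain ⟨w2, fa1, fb1⟩ : TL d (a 0) + TL d (a 1) = TL d (a 0 * a 1) ∧ Fw d (a 0) x₁ y₁ ∧
      Fw d (a 1) x₁ y₁ := by
    rcases c1 with c | c | c
    · exact c
    · exfalso; linarith
    · exfalso; linarith
  obtain ⟨x, y, ga, gb, gc, gs⟩ := hTr K X G S d h (a 0) (a 1) (a 2) x₁ y₁ x₂ y₂ x₃ y₃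
    ((TL d (a 0) + TL d (a 1) + TL d (a 2)) / 2) (hn 0) (hn 1) (hn 2) n1 n2 n3 fa1 fb1 fb2 fc2
    fa3 fc3 (by linarith) (by linarith) (by linarith)
  have hxy : x ≠ y := by
    intro e
    subst e
    rw [h.self] at gs
    linarith
  have n01 : a 0 * a 1 ≠ 1 := fun e =>
    hnc 0 1 (by decide) (by rw [e, eq_inv_of_mul_eq_one_right e]; simp)
  have n12 : a 1 * a 2 ≠ 1 := fun e =>
    hnc 1 2 (by decide) (by rw [e, eq_inv_of_mul_eq_one_right e]; simp)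
  obtain ⟨m1, m2⟩ := hPr K X G S d h (a 0) (a 1) x y (hn 0) (hn 1) hxy ga gb
  obtain ⟨m3, -⟩ := hPr K X G S d h (a 0 * a 1) (a 2) x y n01 (hn 2) hxy m2 gc
  obtain ⟨m4, m5⟩ := hPr K X G S d h (a 1) (a 2) x y (hn 1) (hn 2) hxy gb gc
  obtain ⟨m6, -⟩ := hPr K X G S d h (a 1 * a 2) (a 2) x y n12 (hn 2) hxy m5 gc
  obtain ⟨f, hf⟩ := hFn K X G S d h x y
  refine ⟨by linarith, by linarith, by linarith, w1.symm, by linarith, by linarith, f, d x y,
    h.mem _ _, by linarith, ?_⟩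
  intro i
  have hi : Fw d (a i) x y := by
    fin_cases i
    · exact ga
    · exact gb
    · exact gc
  exact hf (a i) (hn i) hi

end Pool.Agent.LF.Z
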