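import Pool.Agent.Lib.LF.Z.Spec

set_option autoImplicit false
set_option linter.unusedSectionVars false
set_option linter.unusedVariables false
set_option linter.unusedSimpArgs false

namespace Pool.Agent.LF.Z

namespace DsAux

section scal

variable {Λ : Type} [AddCommGroup Λ] [LinearOrder Λ] [IsOrderedAddMonoid Λ]

theorem le_of {a b c : Λ} (e : b - a = c) (hc : 0 ≤ c) : a ≤ b := by
  rw [← sub_nonneg, e]
  exact hc

theorem lt_of {a b c : Λ} (e : b - a = c) (hc : 0 < c) : a < b := by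
  rw [← sub_pos, e]
  exact hc

theorem pos_of_dbl {a : Λ} (h : 0 < a + a) : 0 < a := by
  by_contra hc
  push Not at hc
  exact absurd (lt_of_lt_of_le h (add_nonpos hc hc)) (lt_irrefl _)

theorem facts {li lj lk Δ yi yj yk : Λ} (h : Δ < lj + lk - li) (hsum : li + lj + lk ≤ Δ + Δ)
    (hj : 0 < yj) (hk : 0 < yk) (ei : yi = lj + lk - li) (ej : yj = lk + li - lj)
    (ek : yk = li + lj - lk) :
    0 < yi - yj - yk ∧ 0 < lj - li ∧ 0 < lk - li ∧
    yi - yj - yk = (lj - li) + (lk - li) - li ∧ yj = (lk - li) + li - (lj - li) ∧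
    yk = li + (lj - li) - (lk - li) ∧ li + (lj - li) + (lk - li) ≤ (Δ - li) + (Δ - li) := by
  have h1 := sub_pos.2 h
  have h2 := sub_nonneg.2 hsum
  have h0 : 0 < yi - yj - yk := by
    have e : yi - yj - yk = ((lj + lk - li - Δ) + (lj + lk - li - Δ)) +
        (Δ + Δ - (li + lj + lk)) := by
      rw [ei, ej, ek]
      abel
    rw [e]
    exact add_pos_of_pos_of_nonneg (add_pos h1 h1) h2
  refine ⟨h0, pos_of_dbl ?_, pos_of_dbl ?_, ?_, ?_, ?_, ?_⟩
  · have e : lj - li + (lj - li) = (yi - yj - yk) + yk := by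
      rw [ei, ej, ek]
      abel
    rw [e]
    exact add_pos h0 hk
  · have e : lk - li + (lk - li) = (yi - yj - yk) + yj := by
      rw [ei, ej, ek]
      abel
    rw [e]
    exact add_pos h0 hj
  · rw [ei, ej, ek]
    abel
  · rw [ej]
    abel
  · rw [ek]
    abel
  · refine le_of (c := Δ + Δ - (li + lj + lk)) ?_ h2
    abel

end scal

section core

variable {Γ X Λ : Type} [AddCommGroup Λ] [LinearOrder Λ] [IsOrderedAddMonoid Λ] [Group Γ]
  [MulAction Γ X]

theorem tr {gi gj : Γ} {li lj Δ : Λ} {f : Λ → X} (hij : li ≤ lj)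
    (hi : ∀ s, 0 ≤ s → s + li ≤ Δ → gi • f s = f (s + li))
    (hj : ∀ s, 0 ≤ s → s + lj ≤ Δ → gj • f s = f (s + lj)) (s : Λ) (hs : 0 ≤ s)
    (hs' : s + lj ≤ Δ) : (gi⁻¹ * gj) • f s = f (s + (lj - li)) := by
  rw [mul_smul, hj s hs hs', inv_smul_eq_iff]
  rw [hi (s + (lj - li)) (add_nonneg hs (sub_nonneg.2 hij))]
  · congr 1
    abel
  · have e : s + (lj - li) + li = s + lj := by abel
    rw [e]
    exact hs'

theorem key (hfree : ∀ (g : Γ) (x : X), g • x = x → g = 1) {gi gj gk : Γ} {li lj lk Δ : Λ}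
    {f : Λ → X} (hij : li ≤ lj) (hik : li ≤ lk)
    (hi : ∀ s, 0 ≤ s → s + li ≤ Δ → gi • f s = f (s + li))
    (hj : ∀ s, 0 ≤ s → s + lj ≤ Δ → gj • f s = f (s + lj))
    (hk : ∀ s, 0 ≤ s → s + lk ≤ Δ → gk • f s = f (s + lk))
    (hne : (gi⁻¹ * gj) * (gi⁻¹ * gk) ≠ (gi⁻¹ * gk) * (gi⁻¹ * gj)) : Δ < lj + lk - li := by
  by_contra hcon
  push Not at hcon
  apply hne
  have nj := sub_nonneg.2 hij
  have nk := sub_nonneg.2 hik
  have e1 : 0 + lk ≤ Δ := by
    refine le_trans (le_of (c := lj - li) ?_ nj) hcon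
    abel
  have e2 : 0 + lj ≤ Δ := by
    refine le_trans (le_of (c := lk - li) ?_ nk) hcon
    abel
  have e3 : 0 + (lk - li) + lj ≤ Δ := by
    have e : 0 + (lk - li) + lj = lj + lk - li := by abel
    rw [e]
    exact hcon
  have e4 : 0 + (lj - li) + lk ≤ Δ := by
    have e : 0 + (lj - li) + lk = lj + lk - li := by abel
    rw [e]
    exact hcon
  have a1 : ((gi⁻¹ * gj) * (gi⁻¹ * gk)) • f 0 = f (0 + (lk - li) + (lj - li)) := by
    rw [mul_smul, tr hik hi hk 0 le_rfl e1, tr hij hi hj _ (add_nonneg le_rfl nk) e3]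
  have a2 : ((gi⁻¹ * gk) * (gi⁻¹ * gj)) • f 0 = f (0 + (lj - li) + (lk - li)) := by
    rw [mul_smul, tr hij hi hj 0 le_rfl e2, tr hik hi hk _ (add_nonneg le_rfl nj) e4]
  have a3 : 0 + (lk - li) + (lj - li) = 0 + (lj - li) + (lk - li) := by abel
  rw [a3, ← a2] at a1
  have a4 := hfree (((gi⁻¹ * gk) * (gi⁻¹ * gj))⁻¹ * ((gi⁻¹ * gj) * (gi⁻¹ * gk))) (f 0) (by
    rw [mul_smul, a1, inv_smul_smul])
  rwa [inv_mul_eq_one, eq_comm] at a4

theorem trf {gi gj : Γ} {li lj Δ : Λ} {f : Λ → X} (hij : li ≤ lj)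
    (hi : ∀ s, 0 ≤ s → s + li ≤ Δ → gi • f s = f (s + li))
    (hj : ∀ s, 0 ≤ s → s + lj ≤ Δ → gj • f s = f (s + lj)) (s : Λ) (hs : 0 ≤ s)
    (hs' : s + (lj - li) ≤ Δ - li) : (gi⁻¹ * gj) • f s = f (s + (lj - li)) := by
  apply tr hij hi hj s hs
  have h1 := sub_nonneg.2 hs'
  refine le_of (c := Δ - li - (s + (lj - li))) ?_ h1
  abel

theorem tri {gi : Γ} {li Δ : Λ} {f : Λ → X} (h0 : 0 ≤ li)
    (hi : ∀ s, 0 ≤ s → s + li ≤ Δ → gi • f s = f (s + li)) (s : Λ) (hs : 0 ≤ s)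
    (hs' : s + li ≤ Δ - li) : gi • f s = f (s + li) := by
  apply hi s hs
  refine le_trans hs' (le_of (c := li) ?_ h0)
  abel

end core

end DsAux

open DsAux in
theorem pDs (hFa : S_Fa) (hFc : S_Fc) : S_Ds := by
  intro Γ X Λ _ _ _ _ _ hfree y hy
  obtain ⟨g, l, Δ, f, hinj, hl, hy0, hyl, hsum, hf⟩ := hy
  obtain ⟨i, hi⟩ := Finite.exists_min l
  have hc := (hFc Γ g hinj).2 i
  have hK : Δ < l (i + 1) + l (i + 2) - l i :=
    key hfree (hi _) (hi _) (hf i) (hf _) (hf _) hc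
  refine ⟨i, fun m => if m = i then g i else (g i)⁻¹ * g m,
    fun m => if m = i then l i else l m - l i, Δ - l i, f, hFa Γ g i hinj, ?_⟩
  have y0 := hyl 0
  have y1 := hyl 1
  have y2 := hyl 2
  simp only [Fin.isValue, Fin.reduceAdd, zero_add] at y0 y1 y2
  fin_cases i
  · simp only [Fin.isValue, Fin.zero_eta, Fin.mk_one, Fin.reduceFinMk, Fin.reduceAdd,
      zero_add] at hK hi hc ⊢
    obtain ⟨f1, f2, f3, f4, f5, f6, f7⟩ := facts hK hsum (hy0 1) (hy0 2) y0 y1 y2
    refine ⟨?_, ?_, ?_, ?_, ?_⟩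
    · intro m
      fin_cases m
      · exact hl 0
      · exact f2
      · exact f3
    · intro m
      fin_cases m
      · exact f1
      · exact hy0 1
      · exact hy0 2
    · intro m
      fin_cases m
      · exact f4
      · exact f5
      · exact f6
    · exact f7
    · intro m s hs hs'
      fin_cases m
      · exact tri (hl 0).le (hf 0) s hs hs'
      · exact trf (hi 1) (hf 0) (hf 1) s hs hs'
      · exact trf (hi 2) (hf 0) (hf 2) s hs hs'
  · simp only [Fin.isValue, Fin.zero_eta, Fin.mk_one, Fin.reduceFinMk, Fin.reduceAdd,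
      zero_add] at hK hi hc ⊢
    obtain ⟨f1, f2, f3, f4, f5, f6, f7⟩ := facts (li := l 1) (lj := l 2) (lk := l 0) hK
      (by have e : l 1 + l 2 + l 0 = l 0 + l 1 + l 2 := by abel
          rw [e]; exact hsum) (hy0 2) (hy0 0) y1 y2 y0
    refine ⟨?_, ?_, ?_, ?_, ?_⟩
    · intro m
      fin_cases m
      · exact f3
      · exact hl 1
      · exact f2
    · intro m
      fin_cases m
      · exact hy0 0
      · exact f1
      · exact hy0 2
    · intro m
      fin_cases m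
      · exact f6
      · exact f4
      · exact f5
    · show l 0 - l 1 + l 1 + (l 2 - l 1) ≤ _
      have e : l 0 - l 1 + l 1 + (l 2 - l 1) = l 1 + (l 2 - l 1) + (l 0 - l 1) := by abel
      rw [e]
      exact f7
    · intro m s hs hs'
      fin_cases m
      · exact trf (hi 0) (hf 1) (hf 0) s hs hs'
      · exact tri (hl 1).le (hf 1) s hs hs'
      · exact trf (hi 2) (hf 1) (hf 2) s hs hs'
  · simp only [Fin.isValue, Fin.zero_eta, Fin.mk_one, Fin.reduceFinMk, Fin.reduceAdd,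
      zero_add] at hK hi hc ⊢
    obtain ⟨f1, f2, f3, f4, f5, f6, f7⟩ := facts (li := l 2) (lj := l 0) (lk := l 1) hK
      (by have e : l 2 + l 0 + l 1 = l 0 + l 1 + l 2 := by abel
          rw [e]; exact hsum) (hy0 0) (hy0 1) y2 y0 y1
    refine ⟨?_, ?_, ?_, ?_, ?_⟩
    · intro m
      fin_cases m
      · exact f2
      · exact f3
      · exact hl 2
    · intro m
      fin_cases m
      · exact hy0 0
      · exact hy0 1
      · exact f1
    · intro m
      fin_cases m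
      · exact f5
      · exact f6
      · exact f4
    · show l 0 - l 2 + (l 1 - l 2) + l 2 ≤ _
      have e : l 0 - l 2 + (l 1 - l 2) + l 2 = l 2 + (l 0 - l 2) + (l 1 - l 2) := by abel
      rw [e]
      exact f7
    · intro m s hs hs'
      fin_cases m
      · exact trf (hi 0) (hf 2) (hf 0) s hs hs'
      · exact trf (hi 1) (hf 2) (hf 1) s hs hs'
      · exact tri (hl 2).le (hf 2) s hs hs'

end Pool.Agent.LF.Z
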