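import Pool.Agent.Lib.LF.Z.Spec

/-!
# C43, block Z: a Nielsen automorphism (`S_Fa`) (helper66)
-/

set_option autoImplicit false

namespace Pool.Agent.LF.Z

theorem pFa : S_Fa := by
  intro Γ _ g i hinj
  let θ : FreeGroup (Fin 3) →* FreeGroup (Fin 3) := FreeGroup.lift fun m =>
    if m = i then FreeGroup.of i else (FreeGroup.of i)⁻¹ * FreeGroup.of m
  let θ' : FreeGroup (Fin 3) →* FreeGroup (Fin 3) := FreeGroup.lift fun m =>
    if m = i then FreeGroup.of i else FreeGroup.of i * FreeGroup.of m
  have h1 : θ'.comp θ = MonoidHom.id _ := by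
    refine FreeGroup.ext_hom _ _ fun m => ?_
    show θ' (θ (FreeGroup.of m)) = FreeGroup.of m
    by_cases hm : m = i
    · have e1 : θ (FreeGroup.of m) = FreeGroup.of i := by
        show FreeGroup.lift _ (FreeGroup.of m) = _
        rw [FreeGroup.lift_apply_of, if_pos hm]
      have e2 : θ' (FreeGroup.of i) = FreeGroup.of i := by
        show FreeGroup.lift _ (FreeGroup.of i) = _
        rw [FreeGroup.lift_apply_of, if_pos rfl]
      rw [e1, e2, hm]
    · have e1 : θ (FreeGroup.of m) = (FreeGroup.of i)⁻¹ * FreeGroup.of m := by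
        show FreeGroup.lift _ (FreeGroup.of m) = _
        rw [FreeGroup.lift_apply_of, if_neg hm]
      have e2 : θ' (FreeGroup.of i) = FreeGroup.of i := by
        show FreeGroup.lift _ (FreeGroup.of i) = _
        rw [FreeGroup.lift_apply_of, if_pos rfl]
      have e3 : θ' (FreeGroup.of m) = FreeGroup.of i * FreeGroup.of m := by
        show FreeGroup.lift _ (FreeGroup.of m) = _
        rw [FreeGroup.lift_apply_of, if_neg hm]
      rw [e1, map_mul, map_inv, e2, e3, inv_mul_cancel_left]
  have h2 : (FreeGroup.lift (fun m => if m = i then g i else (g i)⁻¹ * g m) :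
      FreeGroup (Fin 3) →* Γ) = (FreeGroup.lift g).comp θ := by
    refine FreeGroup.ext_hom _ _ fun m => ?_
    show FreeGroup.lift _ (FreeGroup.of m) = FreeGroup.lift g (FreeGroup.lift _ (FreeGroup.of m))
    rw [FreeGroup.lift_apply_of, FreeGroup.lift_apply_of]
    by_cases hm : m = i
    · rw [if_pos hm, if_pos hm, FreeGroup.lift_apply_of]
    · rw [if_neg hm, if_neg hm, map_mul, map_inv, FreeGroup.lift_apply_of,
        FreeGroup.lift_apply_of]
  rw [h2]
  have h3 : Function.Injective θ := by
    intro x y hxy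
    have := congrArg θ' hxy
    have e : ∀ z, θ' (θ z) = z := fun z => DFunLike.congr_fun h1 z
    rwa [e, e] at this
  exact hinj.comp h3

end Pool.Agent.LF.Z
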