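import Pool.Agent.Lib.LF.Z.Spec

/-!
# C43, block Z: the parametrisation of a segment (`S_Fn`) (helper66)
-/

set_option autoImplicit false

namespace Pool.Agent.LF.Z

theorem pFn : S_Fn := by
  intro K X G _ _ _ _ _ _ S d h x y
  classical
  have hex : ∀ s : K, ∃ p : X, s ∈ S → 0 ≤ s → s ≤ d x y → Bt d x p y ∧ d x p = s := by
    intro s
    by_cases hs : s ∈ S ∧ 0 ≤ s ∧ s ≤ d x y
    · obtain ⟨p, h1, h2⟩ := h.ex x y hs.1 hs.2.1 hs.2.2
      exact ⟨p, fun _ _ _ => ⟨h1, h2⟩⟩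
    · exact ⟨x, fun h1 h2 h3 => absurd ⟨h1, h2, h3⟩ hs⟩
  choose f hf using hex
  refine ⟨f, ?_⟩
  intro g hg hfw s hs h0 hle
  have hl := h.tl_nn g
  have hlm : TL d g ∈ S := h.tl_mem g
  obtain ⟨b1, e1⟩ := hf s hs h0 (by linarith)
  obtain ⟨b2, e2⟩ := hf (s + TL d g) (S.add_mem hs hlm) (by linarith) hle
  have f1 := (h.fw_mid hfw b1).1
  have f2 := (h.fw_mid hfw b2).1
  have ho : x ∈ Ax d g := hfw.1
  have c1 := h.co_fw hg ho f1
  have c2 := h.co_fw hg ho f2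
  have c0 : co d g x x = 0 := h.co_self g x
  have c3 := h.co_smul hg ho f1.2.1
  refine h.co_inj hg ho (h.ax_smul f1.2.1) f2.2.1 ?_
  rw [c3]
  linarith

end Pool.Agent.LF.Z
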