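import Pool.Agent.Lib.LF.Z.K1

/-!
# C43, block Z: Fz, the frozen axioms give a tree in the sense of `TT`
-/

set_option autoImplicit false

namespace Pool.Agent.LF.Z

theorem pFz (hK2 : S_K2) : S_Fz := by
  intro Λ K X _ _ _ _ _ _ Φ d h
  have key : ∀ x y z w : X, Φ (d y z) + Φ (d x w) ≤ max (Φ (d y w) + Φ (d x z))
      (Φ (d w z) + Φ (d x y)) := by
    intro x y z w
    obtain ⟨Sy, hy⟩ := h.a1 x y
    obtain ⟨Sz, hz⟩ := h.a1 x z
    obtain ⟨Sw, hw⟩ := h.a1 x w
    obtain ⟨u1, a1, b1, c1, c1', e1, f1, g1⟩ := hK2 Λ K X Φ d h Sy Sw x y w hy hw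
    obtain ⟨u2, a2, b2, c2, c2', e2, f2, g2⟩ := hK2 Λ K X Φ d h Sw Sz x w z hw hz
    obtain ⟨u3, a3, b3, c3, c3', e3, f3, g3⟩ := hK2 Λ K X Φ d h Sy Sz x y z hy hz
    have e1' := congrArg Φ e1
    have f1' := congrArg Φ f1
    have g1' := congrArg Φ g1
    have e2' := congrArg Φ e2
    have f2' := congrArg Φ f2
    have g2' := congrArg Φ g2
    have e3' := congrArg Φ e3
    have f3' := congrArg Φ f3
    have g3' := congrArg Φ g3
    rw [map_add] at e1' f1' g1' e2' f2' g2' e3' f3' g3'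
    rw [h.symm y u1] at g1'
    rw [h.symm w u2] at g2'
    rw [h.symm y u3] at g3'
    rcases le_total (d x u1) (d x u2) with hle | hle
    · apply le_max_of_le_left
      have m1 : u1 ∈ Sz := (c2 u1 b1).2 hle
      have m2 : d x u1 ≤ d x u3 := (c3 u1 a1).1 m1
      have m3 := h.mono.monotone m2
      linarith
    · apply le_max_of_le_right
      have m1 : u2 ∈ Sy := (c1' u2 a2).2 hle
      have m2 : d x u2 ≤ d x u3 := (c3' u2 b2).1 m1
      have m3 := h.mono.monotone m2
      linarith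
  refine
    { mem := fun x y => ⟨d x y, rfl⟩
      eq := ?_
      self := ?_
      symm := ?_
      hyp := ?_
      pt := ?_
      gpS := ?_ }
  · intro x y e
    have e' : Φ (d x y) = Φ 0 := by
      rw [map_zero]
      exact e
    exact (h.eq x y).1 (h.mono.injective e')
  · intro x
    change Φ (d x x) = 0
    rw [h.self, map_zero]
  · intro x y
    change Φ (d x y) = Φ (d y x)
    rw [h.symm]
  · intro x y z w
    change Φ (d x y) + Φ (d z w) ≤ max (Φ (d x z) + Φ (d y w)) (Φ (d x w) + Φ (d y z))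
    have h1 := key x z w y
    have e1 := congrArg Φ (h.symm w z)
    have e2 := congrArg Φ (h.symm y z)
    have e3 := congrArg Φ (h.symm w y)
    rcases le_max_iff.1 h1 with h2 | h2
    · apply le_max_of_le_right
      linarith
    · apply le_max_of_le_left
      linarith
  · intro x y s hs h0 h1
    obtain ⟨σ, rfl⟩ := hs
    obtain ⟨S, hS⟩ := h.a1 x y
    obtain ⟨sx, sy, s1, s2, s3, s4⟩ := h.seg hS
    have h0' : 0 ≤ σ := by
      have : Φ 0 ≤ Φ σ := by
        rw [map_zero]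
        exact h0
      exact h.mono.le_iff_le.1 this
    have h1' : σ ≤ d x y := h.mono.le_iff_le.1 h1
    obtain ⟨p, hp, e⟩ := s4 σ h0' h1'
    refine ⟨p, congrArg Φ e, ?_⟩
    have := congrArg Φ (s2 p hp)
    rw [map_add, e] at this
    change Φ (d p y) = Φ (d x y) - Φ σ
    linarith
  · intro x y z
    obtain ⟨Sy, hy⟩ := h.a1 x y
    obtain ⟨Sz, hz⟩ := h.a1 x z
    obtain ⟨u3, a3, b3, c3, c3', e3, f3, g3⟩ := hK2 Λ K X Φ d h Sy Sz x y z hy hz
    have e3' := congrArg Φ e3
    have f3' := congrArg Φ f3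
    have g3' := congrArg Φ g3
    rw [map_add] at e3' f3' g3'
    rw [h.symm y u3] at g3'
    refine ⟨d x u3, ?_⟩
    change Φ (d x u3) = (Φ (d x y) + Φ (d x z) - Φ (d y z)) / 2
    linarith

end Pool.Agent.LF.Z
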