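import Pool.Agent.Lib.LF.Z.Spec

/-!
# C43, block Z: K1, the common part of two segments with the same origin
-/

set_option autoImplicit false
set_option linter.unusedSectionVars false

namespace Pool.Agent.LF.Z

section K1

variable {Λ K X : Type} [AddCommGroup Λ] [LinearOrder Λ] [IsOrderedAddMonoid Λ]
  [Field K] [LinearOrder K] [IsStrictOrderedRing K] {Φ : Λ →+ K} {d : X → X → Λ}

theorem Fr.self (h : Fr Φ d) (x : X) : d x x = 0 := (h.eq x x).2 rfl

theorem Fr.nn (h : Fr Φ d) (x y : X) : 0 ≤ d x y := by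
  by_contra hc
  have hc' := not_le.1 hc
  have h1 := h.tri x y x
  rw [h.self, h.symm y x] at h1
  exact absurd h1 (not_le.2 (add_neg hc' hc'))

/-- the points of a frozen segment -/
theorem Fr.seg (h : Fr Φ d) {S : Set X} {x y : X} (hS : SegF d S x y) :
    x ∈ S ∧ y ∈ S ∧ (∀ p ∈ S, d x p ≤ d x y) ∧ (∀ p ∈ S, d x p + d p y = d x y) ∧
      (∀ p ∈ S, ∀ q ∈ S, d p q = |d x p - d x q|) ∧
      ∀ s, 0 ≤ s → s ≤ d x y → ∃ p ∈ S, d x p = s := by
  obtain ⟨f, f0, f1, hf, rfl⟩ := hS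
  have hD := h.nn x y
  have m0 : (0 : Λ) ∈ Set.Icc (0 : Λ) (d x y) := ⟨le_rfl, hD⟩
  have m1 : d x y ∈ Set.Icc (0 : Λ) (d x y) := ⟨hD, le_rfl⟩
  have key : ∀ s ∈ Set.Icc (0 : Λ) (d x y), d x (f s) = s := by
    intro s hs
    have := hf 0 m0 s hs
    rw [f0, zero_sub, abs_neg, abs_of_nonneg hs.1] at this
    exact this
  refine ⟨⟨0, m0, f0⟩, ⟨_, m1, f1⟩, ?_, ?_, ?_, ?_⟩
  · rintro _ ⟨s, hs, rfl⟩
    rw [key s hs]
    exact hs.2
  · rintro _ ⟨s, hs, rfl⟩
    rw [key s hs]
    have := hf s hs _ m1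
    rw [f1, abs_sub_comm, abs_of_nonneg (sub_nonneg.2 hs.2)] at this
    rw [this]
    abel
  · rintro _ ⟨s, hs, rfl⟩ _ ⟨t, ht, rfl⟩
    rw [key s hs, key t ht]
    exact hf s hs t ht
  · intro s h0 h1
    exact ⟨f s, ⟨s, ⟨h0, h1⟩, rfl⟩, key s ⟨h0, h1⟩⟩

theorem Fr.seg_eq (h : Fr Φ d) {S : Set X} {x y : X} (hS : SegF d S x y) {p q : X}
    (hp : p ∈ S) (hq : q ∈ S) (e : d x p = d x q) : p = q := by
  have := (h.seg hS).2.2.2.2.1 p hp q hq
  rw [e, sub_self, abs_zero] at this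
  exact (h.eq p q).1 this

theorem pK1 : S_K1 := by
  intro Λ K X _ _ _ _ _ _ Φ d h S T x y z hS hT
  obtain ⟨a, b, hab⟩ := h.a3 S T x y z hS hT
  obtain ⟨sx, sy, s1, s2, s3, s4⟩ := h.seg hS
  obtain ⟨tx, tz, t1, t2, t3, t4⟩ := h.seg hT
  obtain ⟨ia, ib, i1, i2, i3, i4⟩ := h.seg hab
  have hx : x ∈ S ∩ T := ⟨sx, tx⟩
  have e1 := i2 x hx
  have e2 := s3 a ia.1 b ib.1
  have main : ∃ w ∈ S ∩ T, (∀ p ∈ S ∩ T, d x p ≤ d x w) ∧
      ∀ s, 0 ≤ s → s ≤ d x w → ∃ p ∈ S ∩ T, d x p = s := by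
    rcases le_total (d x a) (d x b) with hle | hle
    · have hz : d x a = 0 := by
        rw [e2, abs_sub_comm, abs_of_nonneg (sub_nonneg.2 hle), h.symm a x] at e1
        have h1 : d x a + d x a = 0 := by
          have h2 : d x a + d x a = (d x a + d x b) - (d x b - d x a) := by abel
          rw [h2, e1, sub_self]
        have h3 := h.nn x a
        exact le_antisymm (by
          by_contra hc
          exact absurd h1 (add_pos (not_le.1 hc) (not_le.1 hc)).ne') h3
      have ex : x = a := (h.eq x a).1 hz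
      subst ex
      exact ⟨b, ib, i1, i4⟩
    · have hz : d x b = 0 := by
        rw [e2, abs_of_nonneg (sub_nonneg.2 hle), h.symm a x] at e1
        have h1 : d x b + d x b = 0 := by
          have h2 : d x b + d x b = (d x a + d x b) - (d x a - d x b) := by abel
          rw [h2, e1, sub_self]
        have h3 := h.nn x b
        exact le_antisymm (by
          by_contra hc
          exact absurd h1 (add_pos (not_le.1 hc) (not_le.1 hc)).ne') h3
      have ex : x = b := (h.eq x b).1 hz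
      subst ex
      refine ⟨a, ia, ?_, ?_⟩
      · intro p hp
        have h1 := i2 p hp
        have h2 := h.nn a p
        rw [h.symm p x, h.symm a x] at h1
        rw [← h1]
        exact le_add_of_nonneg_left h2
      · intro s h0 h1
        obtain ⟨p, hp, hps⟩ := i4 (d a x - s) (by
          rw [h.symm a x]
          exact sub_nonneg.2 h1) (sub_le_self _ h0)
        refine ⟨p, hp, ?_⟩
        have h2 := i2 p hp
        rw [hps, h.symm p x] at h2
        have h3 : d x p = (d a x - s + d x p) - d a x + s := by abel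
        rw [h3, h2]
        abel
  obtain ⟨w, hw, w1, w2⟩ := main
  refine ⟨w, hw.1, hw.2, ?_, ?_⟩
  · intro p hp
    constructor
    · intro hp'
      exact w1 p ⟨hp, hp'⟩
    · intro hle
      obtain ⟨q, hq, hqs⟩ := w2 (d x p) (h.nn x p) hle
      rw [h.seg_eq hS hp hq.1 hqs.symm]
      exact hq.2
  · intro p hp
    constructor
    · intro hp'
      exact w1 p ⟨hp', hp⟩
    · intro hle
      obtain ⟨q, hq, hqs⟩ := w2 (d x p) (h.nn x p) hle
      rw [h.seg_eq hT hp hq.2 hqs.symm]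
      exact hq.1

end K1

end Pool.Agent.LF.Z
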