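import Pool.Agent.Lib.LF.Z.Spec

/-!
# C43, block Z, K2 (helper19): the median from the frozen axioms
-/

set_option autoImplicit false

namespace Pool.Agent.LF.Z

namespace K2Aux

variable {Λ K X : Type} [AddCommGroup Λ] [LinearOrder Λ] [IsOrderedAddMonoid Λ]
  [Field K] [LinearOrder K] [IsStrictOrderedRing K] {Φ : Λ →+ K} {d : X → X → Λ}

theorem self (hF : Fr Φ d) (x : X) : d x x = 0 := (hF.eq x x).mpr rfl

theorem nng (hF : Fr Φ d) (x y : X) : 0 ≤ d x y := by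
  have h1 := hF.tri x y x
  rw [self hF, hF.symm y x] at h1
  rw [← hF.mono.le_iff_le] at h1 ⊢
  rw [map_add] at h1
  rw [map_zero] at h1 ⊢
  linarith

theorem phi_abs (hF : Fr Φ d) (a : Λ) : Φ |a| = |Φ a| := by
  rcases le_total 0 a with h | h
  · have h1 : 0 ≤ Φ a := by
      have := hF.mono.monotone h
      rwa [map_zero] at this
    rw [abs_of_nonneg h, abs_of_nonneg h1]
  · have h1 : Φ a ≤ 0 := by
      have := hF.mono.monotone h
      rwa [map_zero] at this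
    rw [abs_of_nonpos h, abs_of_nonpos h1, map_neg]

/-- parameter of a point of a segment -/
theorem par (hF : Fr Φ d) {x y : X} {f : Λ → X} (f0 : f 0 = x)
    (f2 : ∀ s ∈ Set.Icc (0 : Λ) (d x y), ∀ t ∈ Set.Icc (0 : Λ) (d x y),
      d (f s) (f t) = |s - t|) {s : Λ} (hs : s ∈ Set.Icc (0 : Λ) (d x y)) : d x (f s) = s := by
  have h1 := f2 0 ⟨le_rfl, nng hF x y⟩ s hs
  rw [f0, zero_sub, abs_neg, abs_of_nonneg hs.1] at h1
  exact h1

theorem basic (hF : Fr Φ d) {S : Set X} {x y : X} (hS : SegF d S x y) :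
    x ∈ S ∧ y ∈ S ∧ (∀ p ∈ S, d x p ≤ d x y ∧ d x p + d p y = d x y) ∧
    (∀ p ∈ S, ∀ q ∈ S, d p q = |d x p - d x q|) ∧
    (∀ s, 0 ≤ s → s ≤ d x y → ∃ p ∈ S, d x p = s) := by
  obtain ⟨f, f0, f1, f2, rfl⟩ := hS
  have hD := nng hF x y
  refine ⟨⟨0, ⟨le_rfl, hD⟩, f0⟩, ⟨d x y, ⟨hD, le_rfl⟩, f1⟩, ?_, ?_, ?_⟩
  · rintro p ⟨s, hs, rfl⟩
    have h1 := par hF f0 f2 hs
    have h2 := f2 s hs (d x y) ⟨hD, le_rfl⟩
    rw [f1, abs_sub_comm, abs_of_nonneg (sub_nonneg.mpr hs.2)] at h2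
    rw [h1, h2]
    exact ⟨hs.2, by abel⟩
  · rintro p ⟨s, hs, rfl⟩ q ⟨t, ht, rfl⟩
    rw [par hF f0 f2 hs, par hF f0 f2 ht]
    exact f2 s hs t ht
  · intro s h0 h1
    exact ⟨f s, ⟨s, ⟨h0, h1⟩, rfl⟩, par hF f0 f2 ⟨h0, h1⟩⟩

theorem inj (hF : Fr Φ d) {S : Set X} {x y p q : X} (hS : SegF d S x y) (hp : p ∈ S) (hq : q ∈ S)
    (e : d x p = d x q) : p = q := by
  rw [← hF.eq, (basic hF hS).2.2.2.1 p hp q hq, e, sub_self, abs_zero]

/-- the reversed final part of a segment -/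
theorem segS (hF : Fr Φ d) {S : Set X} {x y w : X} (hS : SegF d S x y) (hw : w ∈ S) :
    SegF d {p | p ∈ S ∧ d x w ≤ d x p} y w := by
  have hb := basic hF hS
  have hyw : d y w = d x y - d x w := by
    have := (hb.2.2.1 w hw).2
    rw [hF.symm y w, ← this]
    abel
  have hwD := (hb.2.2.1 w hw).1
  have hw0 := nng hF x w
  obtain ⟨f, f0, f1, f2, rfl⟩ := hS
  have hD := nng hF x y
  obtain ⟨u, hu, hfu⟩ := hw
  have hu2 : d x w = u := by
    rw [← hfu]
    exact par hF f0 f2 hu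
  have hin : ∀ s ∈ Set.Icc (0 : Λ) (d y w), d x y - s ∈ Set.Icc (0 : Λ) (d x y) := by
    intro s hs
    rw [hyw] at hs
    refine ⟨sub_nonneg.mpr (hs.2.trans (sub_le_self _ hw0)), sub_le_self _ hs.1⟩
  refine ⟨fun s => f (d x y - s), ?_, ?_, ?_, ?_⟩
  · show f (d x y - 0) = y
    rw [sub_zero]
    exact f1
  · show f (d x y - d y w) = w
    rw [hyw, sub_sub_cancel, hu2]
    exact hfu
  · intro s hs t ht
    show d (f (d x y - s)) (f (d x y - t)) = |s - t|
    rw [f2 _ (hin s hs) _ (hin t ht), abs_sub_comm]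
    congr 1
    abel
  · ext p
    constructor
    · rintro ⟨⟨v, hv, rfl⟩, hp⟩
      rw [par hF f0 f2 hv] at hp
      refine ⟨d x y - v, ⟨sub_nonneg.mpr hv.2, ?_⟩, ?_⟩
      · rw [hyw]
        exact sub_le_sub_left hp _
      · show f (d x y - (d x y - v)) = f v
        rw [sub_sub_cancel]
    · rintro ⟨s, hs, rfl⟩
      refine ⟨⟨d x y - s, hin s hs, rfl⟩, ?_⟩
      show d x w ≤ d x (f (d x y - s))
      rw [par hF f0 f2 (hin s hs)]
      have h1 := hs.2
      rw [hyw] at h1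
      exact le_sub_comm.mp h1

/-- the final part of a segment -/
theorem segT (hF : Fr Φ d) {T : Set X} {x z w : X} (hT : SegF d T x z) (hw : w ∈ T) :
    SegF d {p | p ∈ T ∧ d x w ≤ d x p} w z := by
  have hb := basic hF hT
  have hwz : d w z = d x z - d x w := by
    have := (hb.2.2.1 w hw).2
    rw [← this]
    abel
  have hwD := (hb.2.2.1 w hw).1
  have hw0 := nng hF x w
  obtain ⟨f, f0, f1, f2, rfl⟩ := hT
  have hD := nng hF x z
  obtain ⟨u, hu, hfu⟩ := hw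
  have hu2 : d x w = u := by
    rw [← hfu]
    exact par hF f0 f2 hu
  have hin : ∀ s ∈ Set.Icc (0 : Λ) (d w z), s + d x w ∈ Set.Icc (0 : Λ) (d x z) := by
    intro s hs
    rw [hwz] at hs
    exact ⟨add_nonneg hs.1 hw0, le_sub_iff_add_le.mp hs.2⟩
  refine ⟨fun s => f (s + d x w), ?_, ?_, ?_, ?_⟩
  · show f (0 + d x w) = w
    rw [zero_add, hu2]
    exact hfu
  · show f (d w z + d x w) = z
    rw [hwz, sub_add_cancel]
    exact f1
  · intro s hs t ht
    show d (f (s + d x w)) (f (t + d x w)) = |s - t|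
    rw [f2 _ (hin s hs) _ (hin t ht)]
    congr 1
    abel
  · ext p
    constructor
    · rintro ⟨⟨v, hv, rfl⟩, hp⟩
      rw [par hF f0 f2 hv] at hp
      refine ⟨v - d x w, ⟨sub_nonneg.mpr hp, ?_⟩, ?_⟩
      · rw [hwz]
        exact sub_le_sub_right hv.2 _
      · show f (v - d x w + d x w) = f v
        rw [sub_add_cancel]
    · rintro ⟨s, hs, rfl⟩
      refine ⟨⟨s + d x w, hin s hs, rfl⟩, ?_⟩
      show d x w ≤ d x (f (s + d x w))
      rw [par hF f0 f2 (hin s hs)]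
      exact le_add_of_nonneg_left hs.1

/-- the computation on a line -/
theorem line {A B C Q : K} (h1 : |B - Q| = |B - A|) (h2 : |Q - C| = |B - C| - |B - Q|)
    (h3 : A ≠ Q) (h4 : A ≠ B) : |A - B| + |B - C| = |A - C| := by
  have h5 : B - Q = -(B - A) := by
    rcases abs_eq_abs.mp h1 with h | h
    · exact absurd (by linarith) h3
    · exact h
  have hQ : Q = 2 * B - A := by linarith
  subst hQ
  rw [h1] at h2
  rcases lt_or_gt_of_ne h4 with h | h
  · rw [abs_of_pos (show 0 < B - A by linarith)] at h2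
    rw [abs_of_neg (show A - B < 0 by linarith)]
    rcases abs_cases (B - C) with ⟨e1, e2⟩ | ⟨e1, e2⟩ <;>
    rcases abs_cases (A - C) with ⟨e3, e4⟩ | ⟨e3, e4⟩ <;>
    rcases abs_cases (2 * B - A - C) with ⟨e5, e6⟩ | ⟨e5, e6⟩ <;> rw [e1, e3] <;> rw [e1, e5] at h2 <;>
    linarith
  · rw [abs_of_neg (show B - A < 0 by linarith)] at h2
    rw [abs_of_pos (show 0 < A - B by linarith)]
    rcases abs_cases (B - C) with ⟨e1, e2⟩ | ⟨e1, e2⟩ <;>
    rcases abs_cases (A - C) with ⟨e3, e4⟩ | ⟨e3, e4⟩ <;>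
    rcases abs_cases (2 * B - A - C) with ⟨e5, e6⟩ | ⟨e5, e6⟩ <;> rw [e1, e3] <;> rw [e1, e5] at h2 <;>
    linarith

theorem core (hF : Fr Φ d) {U : Set X} {a b y z w q : X} (hU : SegF d U a b) (hy : y ∈ U)
    (hz : z ∈ U) (hw : w ∈ U) (hq : q ∈ U) (h1 : d w q = d w y) (h2 : d w q + d q z = d w z)
    (h3 : y ≠ q) (h4 : y ≠ w) : d y w + d w z = d y z := by
  have hb := (basic hF hU).2.2.2.1
  rw [hb w hw q hq, hb w hw y hy] at h1
  rw [hb w hw q hq, hb q hq z hz, hb w hw z hz] at h2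
  rw [hb y hy w hw, hb w hw z hz, hb y hy z hz]
  have h5 : d a y ≠ d a q := fun e => h3 (inj hF hU hy hq e)
  have h6 : d a y ≠ d a w := fun e => h4 (inj hF hU hy hw e)
  have g1 := congrArg Φ h1
  have g2 := congrArg Φ h2
  apply hF.mono.injective
  rw [map_add] at g2 ⊢
  simp only [phi_abs hF, map_sub] at g1 g2 ⊢
  exact line g1 (by linarith) (fun e => h5 (hF.mono.injective e))
    (fun e => h6 (hF.mono.injective e))

end K2Aux

open K2Aux in
theorem pK2 (hK1 : S_K1) : S_K2 := by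
  intro Λ K X _ _ _ _ _ _ Φ d hF S T x y z hS hT
  obtain ⟨w, hwS, hwT, w1, w2⟩ := hK1 Λ K X Φ d hF S T x y z hS hT
  have bS := basic hF hS
  have bT := basic hF hT
  refine ⟨w, hwS, hwT, w1, w2, (bS.2.2.1 w hwS).2, (bT.2.2.1 w hwT).2, ?_⟩
  by_cases hyw : y = w
  · subst hyw
    rw [self hF, zero_add]
  by_cases hzw : z = w
  · subst hzw
    rw [self hF, add_zero]
  have sS := segS hF hS hwS
  have sT := segT hF hT hwT
  set S' : Set X := {p | p ∈ S ∧ d x w ≤ d x p} with hS'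
  set T' : Set X := {p | p ∈ T ∧ d x w ≤ d x p} with hT'
  have hint : ∀ p, p ∈ S' → p ∈ T' → p = w := by
    intro p hp hp'
    have h1 := (w1 p hp.1).mp hp'.1
    exact inj hF hS hp.1 hwS (le_antisymm h1 hp.2)
  have hST : S' ∩ T' = {w} := by
    ext p
    constructor
    · rintro ⟨hp, hp'⟩
      exact hint p hp hp'
    · intro hp
      rw [Set.mem_singleton_iff] at hp
      subst hp
      exact ⟨⟨hwS, le_rfl⟩, ⟨hwT, le_rfl⟩⟩
  obtain ⟨a, b, hU⟩ := hF.a2 S' T' y w z sS sT hST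
  have cS := basic hF sS
  have cT := basic hF sT
  have hyU : y ∈ S' ∪ T' := Or.inl cS.1
  have hwU : w ∈ S' ∪ T' := Or.inl cS.2.1
  have hzU : z ∈ S' ∪ T' := Or.inr cT.2.1
  rcases le_total (d w y) (d w z) with hle | hle
  · obtain ⟨q, hq, hq2⟩ := cT.2.2.2.2 (d w y) (nng hF _ _) hle
    refine core hF hU hyU hzU hwU (Or.inr hq) hq2 (cT.2.2.1 q hq).2 ?_ hyw
    rintro rfl
    exact hyw (hint _ cS.1 hq)
  · have hle' : d y w - d w z ≤ d y w := sub_le_self _ (nng hF _ _)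
    have hle'' : 0 ≤ d y w - d w z := by
      rw [sub_nonneg, hF.symm y w]
      exact hle
    obtain ⟨q, hq, hq2⟩ := cS.2.2.2.2 (d y w - d w z) hle'' hle'
    have e1 := (cS.2.2.1 q hq).2
    have e2 : d w q = d w z := by
      rw [hF.symm w q]
      rw [hq2] at e1
      have : d q w = d y w - (d y w - d w z) := by
        rw [← e1]
        rw [e1]
        exact eq_sub_of_add_eq' e1
      rw [this, sub_sub_cancel]
    have e3 : d w q + d q y = d w y := by
      rw [e2, hF.symm q y, hq2, hF.symm w y]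
      abel
    have := core hF hU hzU hyU hwU (Or.inl hq) e2 e3 (by
      rintro rfl
      exact hzw (hint _ hq cT.2.1)) hzw
    rw [hF.symm y w, hF.symm y z, ← this, hF.symm z w]
    abel

end Pool.Agent.LF.Z
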