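import Pool.Agent.Lib.LF.Z.Spec

/-!
# C43, block Z: the dyadic argument (`S_Md`) (helper66)
-/

set_option autoImplicit false

namespace Pool.Agent.LF.Z

theorem Md_aux (n : ℕ) : ∀ a b c : ℤ, a.natAbs + b.natAbs + c.natAbs ≤ n →
    ¬ (a = 0 ∧ b = 0 ∧ c = 0) → ∃ e : ℕ,
    ((∃ m : ℤ, a = 2 ^ e * (2 * m + 1)) ∧ (∃ m : ℤ, b = 2 ^ e * (2 * m + 1)) ∧
      ∃ m : ℤ, c = 2 ^ e * (2 * m + 1)) ∨
    ((∃ m : ℤ, a + a + b + c = 2 ^ e * (2 * m + 1)) ∧ (∃ m : ℤ, a + b = 2 ^ e * (2 * m + 1)) ∧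
      ∃ m : ℤ, b + c = 2 ^ e * (2 * m + 1)) ∨
    ((∃ m : ℤ, (a + a + b + c) + (a + a + b + c) + (a + b) + (b + c) = 2 ^ e * (2 * m + 1)) ∧
      (∃ m : ℤ, (a + a + b + c) + (a + b) = 2 ^ e * (2 * m + 1)) ∧
      ∃ m : ℤ, (a + b) + (b + c) = 2 ^ e * (2 * m + 1)) := by
  induction n using Nat.strong_induction_on with
  | _ n ih =>
    intro a b c hn h0
    by_cases hev : 2 ∣ a ∧ 2 ∣ b ∧ 2 ∣ c
    · obtain ⟨⟨a', rfl⟩, ⟨b', rfl⟩, ⟨c', rfl⟩⟩ := hev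
      have h0' : ¬ (a' = 0 ∧ b' = 0 ∧ c' = 0) := by
        rintro ⟨rfl, rfl, rfl⟩
        exact h0 ⟨rfl, rfl, rfl⟩
      obtain ⟨e, he⟩ := ih (a'.natAbs + b'.natAbs + c'.natAbs) (by omega) a' b' c' le_rfl h0'
      have key : ∀ x : ℤ, (∃ m : ℤ, x = 2 ^ e * (2 * m + 1)) →
          ∀ y : ℤ, y = 2 * x → ∃ m : ℤ, y = 2 ^ (e + 1) * (2 * m + 1) := by
        rintro x ⟨m, rfl⟩ y rfl
        exact ⟨m, by ring⟩
      refine ⟨e + 1, ?_⟩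
      rcases he with ⟨h1, h2, h3⟩ | ⟨h1, h2, h3⟩ | ⟨h1, h2, h3⟩
      · exact Or.inl ⟨key _ h1 _ (by ring), key _ h2 _ (by ring), key _ h3 _ (by ring)⟩
      · exact Or.inr (Or.inl ⟨key _ h1 _ (by ring), key _ h2 _ (by ring), key _ h3 _ (by ring)⟩)
      · exact Or.inr (Or.inr ⟨key _ h1 _ (by ring), key _ h2 _ (by ring), key _ h3 _ (by ring)⟩)
    · refine ⟨0, ?_⟩
      have key : ∀ x : ℤ, x % 2 = 1 → ∃ m : ℤ, x = 2 ^ 0 * (2 * m + 1) := by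
        intro x hx
        exact ⟨x / 2, by omega⟩
      have hcase : (a % 2 = 1 ∧ b % 2 = 1 ∧ c % 2 = 1) ∨
          ((a + a + b + c) % 2 = 1 ∧ (a + b) % 2 = 1 ∧ (b + c) % 2 = 1) ∨
          (((a + a + b + c) + (a + a + b + c) + (a + b) + (b + c)) % 2 = 1 ∧
            ((a + a + b + c) + (a + b)) % 2 = 1 ∧ ((a + b) + (b + c)) % 2 = 1) := by
        omega
      rcases hcase with ⟨h1, h2, h3⟩ | ⟨h1, h2, h3⟩ | ⟨h1, h2, h3⟩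
      · exact Or.inl ⟨key _ h1, key _ h2, key _ h3⟩
      · exact Or.inr (Or.inl ⟨key _ h1, key _ h2, key _ h3⟩)
      · exact Or.inr (Or.inr ⟨key _ h1, key _ h2, key _ h3⟩)

theorem pMd : S_Md := by
  intro v hv
  have h0 : ¬ (v 0 = 0 ∧ v 1 = 0 ∧ v 2 = 0) := by
    rintro ⟨h1, h2, h3⟩
    apply hv
    funext i
    fin_cases i
    · exact h1
    · exact h2
    · exact h3
  obtain ⟨e, he⟩ := Md_aux _ (v 0) (v 1) (v 2) le_rfl h0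
  have f3 : ∀ w : Fin 3 → ℤ, (∃ m : ℤ, w 0 = 2 ^ e * (2 * m + 1)) →
      (∃ m : ℤ, w 1 = 2 ^ e * (2 * m + 1)) → (∃ m : ℤ, w 2 = 2 ^ e * (2 * m + 1)) →
      ∀ i, ∃ m : ℤ, w i = 2 ^ e * (2 * m + 1) := by
    intro w h1 h2 h3 i
    fin_cases i
    · exact h1
    · exact h2
    · exact h3
  refine ⟨e, ?_⟩
  rcases he with ⟨h1, h2, h3⟩ | ⟨h1, h2, h3⟩ | ⟨h1, h2, h3⟩
  · exact Or.inl (f3 v h1 h2 h3)
  · exact Or.inr (Or.inl (f3 (nn v) h1 h2 h3))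
  · exact Or.inr (Or.inr (f3 (nn (nn v)) h1 h2 h3))

end Pool.Agent.LF.Z
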