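import Pool.Agent.Lib.LF.Z.Spec

/-!
# C43, block Z, Mx (helper19): l(g) + l(k) is at most the maximum of l(g k), l(g k⁻¹)
-/

set_option autoImplicit false

namespace Pool.Agent.LF.Z

namespace MxAux

variable {K : Type} [Field K] [LinearOrder K] [IsStrictOrderedRing K] {X : Type}
  {S : AddSubgroup K} {d : X → X → K} {G : Type} [Group G] [MulAction G X] [Nonempty X]

theorem ax_inv_smul (h : Ac S d G) {g : G} {p : X} (hp : p ∈ Ax d g) : g⁻¹ • p ∈ Ax d g := by
  show d (g⁻¹ • p) (g • g⁻¹ • p) = TL d g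
  rw [smul_inv_smul, ← h.iso g, smul_inv_smul]
  exact hp

theorem ax_inv (h : Ac S d G) {g : G} {p : X} (hp : p ∈ Ax d g) : p ∈ Ax d g⁻¹ := by
  show d p (g⁻¹ • p) = TL d g⁻¹
  rw [h.tl_inv, ← h.iso g, smul_inv_smul, h.symm]
  exact hp

/-- the criterion -/
theorem crit (h : Ac S d G) (u : G) (z : X) (hb : Bt d z (u • z) (u • u • z)) :
    TL d u = d z (u • z) := by
  have h1 := h.tl u z
  have h2 := h.iso u z (u • z)
  unfold Bt at hb
  linarith

theorem ne_smul (h : Ac S d G) {g : G} (hg : g ≠ 1) {p : X} (hp : p ∈ Ax d g) : p ≠ g • p := by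
  intro he
  have h1 : d p (g • p) = TL d g := hp
  rw [← he, h.self] at h1
  have := h.tl_pos hg
  linarith

/-- branches at a point of the axis -/
theorem side (h : Ac S d G) {k : G} {o : X} (ho : o ∈ Ax d k) (w : X) :
    Bt d w o (k • o) ∨ Bt d w o (k⁻¹ • o) := by
  have h1 : d o (k • o) = TL d k := ho
  have h2 : d o (k⁻¹ • o) = TL d k := by
    have := ax_inv h ho
    have h3 : d o (k⁻¹ • o) = TL d k⁻¹ := this
    rw [h3, h.tl_inv]
  have h3 : d (k • o) (k⁻¹ • o) = 2 * TL d k := by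
    have h4 := h.ax2 (ax_inv_smul h ho)
    rw [smul_inv_smul] at h4
    rw [h.symm, h4]
  have h5 := h.tri w o (k • o)
  have h6 := h.tri w o (k⁻¹ • o)
  unfold Bt
  rcases h.h4 w o (k • o) (k⁻¹ • o) with h4 | h4
  · left
    linarith
  · right
    linarith

theorem two (h : Ac S d G) {g k : G} (hg : g ≠ 1) (hk : k ≠ 1) {o : X} (hog : o ∈ Ax d g)
    (hok : o ∈ Ax d k) (a2 : Bt d (g • o) o (k⁻¹ • o)) (a3 : Bt d (g⁻¹ • o) o (k • o)) :
    TL d (g * k) = TL d g + TL d k := by
  have b1 : Bt d o (g • o) (g • k • o) := by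
    have := h.bt g a3
    rwa [smul_inv_smul] at this
  have b2 : Bt d (g • o) (g • k • o) (g • k • g • o) := by
    have := h.bt g (h.bt k (h.bt_symm a2))
    rwa [smul_inv_smul] at this
  have b3 : Bt d (g • k • o) (g • k • g • o) (g • k • g • k • o) := h.bt g (h.bt k b1)
  have n1 : g • o ≠ g • k • o := by
    intro he
    exact ne_smul h hk hok (smul_left_cancel g he)
  have n2 : g • k • o ≠ g • k • g • o := by
    intro he
    exact ne_smul h hg hog (smul_left_cancel k (smul_left_cancel g he))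
  have c1 := (h.lg b1 b2 n1).1
  have c2 := (h.lg c1 b3 n2).2
  have c3 : Bt d o ((g * k) • o) ((g * k) • (g * k) • o) := by
    simp only [mul_smul]
    exact c2
  rw [crit h (g * k) o c3, mul_smul]
  have e1 : d o (g • o) = TL d g := hog
  have e2 : d (g • o) (g • k • o) = TL d k := (h.iso g o (k • o)).trans hok
  unfold Bt at b1
  linarith

end MxAux

open MxAux in
theorem pMx (hPj : S_Pj) : S_Mx := by
  intro K X G _ _ _ _ _ _ S d h g k hg hk
  have hPg := hPj K X G S d h
  -- the bridge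
  obtain ⟨p₀, hp₀⟩ : ∃ p₀, p₀ ∈ Ax d g := by
    obtain ⟨p₀, -, -, -, -, h5, -⟩ := h.exax g (Classical.arbitrary X)
    refine ⟨p₀, ?_⟩
    show d p₀ (g • p₀) = TL d g
    rw [h5]
    rfl
  obtain ⟨q, hq, -, -, hq2⟩ := hPg k p₀ hk
  obtain ⟨p, hp, -, -, B1⟩ := hPg g q hg
  have B2 : ∀ y ∈ Ax d k, Bt d p q y := by
    intro y hy
    have h1 := hq2 y hy
    have h2 := B1 p₀ hp₀
    have h3 := h.tri p₀ p y
    have h5 := h.tri p q y
    have h6 := h.symm p₀ q
    have h7 := h.symm p p₀
    have h8 := h.symm p q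
    unfold Bt at *
    linarith
  have eg : d p (g • p) = TL d g := hp
  have ek : d q (k • q) = TL d k := hq
  by_cases hpq : p = q
  · -- (II)
    subst hpq
    have s1 := side h hq (g • p)
    have s2 := side h hq (g⁻¹ • p)
    have s3 := side h hp (k • p)
    have s4 := side h hp (k⁻¹ • p)
    have t3 : Bt d (g • p) p (k • p) ∨ Bt d (g⁻¹ • p) p (k • p) :=
      s3.imp (fun x => h.bt_symm x) (fun x => h.bt_symm x)
    have t4 : Bt d (g • p) p (k⁻¹ • p) ∨ Bt d (g⁻¹ • p) p (k⁻¹ • p) :=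
      s4.imp (fun x => h.bt_symm x) (fun x => h.bt_symm x)
    have key : (Bt d (g • p) p (k⁻¹ • p) ∧ Bt d (g⁻¹ • p) p (k • p)) ∨
        (Bt d (g • p) p (k • p) ∧ Bt d (g⁻¹ • p) p (k⁻¹ • p)) := by
      tauto
    rcases key with ⟨a2, a3⟩ | ⟨a1, a4⟩
    · rw [← two h hg hk hp hq a2 a3]
      exact le_max_left _ _
    · have hk' : k⁻¹ ≠ 1 := inv_ne_one.mpr hk
      have := two h hg hk' hp (ax_inv h hq) (by rw [inv_inv]; exact a1) a4
      rw [h.tl_inv] at this
      rw [← this]
      exact le_max_right _ _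
  · -- (I)
    have ba : Bt d q p (g • p) := B1 _ (h.ax_smul hp)
    have bb : Bt d p (g • p) (g • q) := by
      have := h.bt g (h.bt_symm (B1 _ (ax_inv_smul h hp)))
      rwa [smul_inv_smul] at this
    have bc : Bt d (g • p) (g • q) (g • k • q) := h.bt g (B2 _ (h.ax_smul hq))
    have bd : Bt d (g • q) (g • k • q) (g • k • p) := by
      have := h.bt g (h.bt k (h.bt_symm (B2 _ (ax_inv_smul h hq))))
      rwa [smul_inv_smul] at this
    have n1 : p ≠ g • p := ne_smul h hg hp
    have n2 : g • p ≠ g • q := fun he => hpq (smul_left_cancel g he)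
    have n3 : g • q ≠ g • k • q := fun he => ne_smul h hk hq (smul_left_cancel g he)
    have n4 : g • k • q ≠ g • k • p := fun he =>
      hpq (smul_left_cancel k (smul_left_cancel g he)).symm
    have c1 := h.lg ba bb n1
    have c2 := h.lg c1.1 bc n2
    have c3 := h.lg c2.1 bd n3
    have c4 := (h.in_l c2.1 c1.2).1
    have c5 := h.bt g (h.bt k c4)
    have c6 := (h.lg c3.1 c5 n4).2
    have c7 : Bt d q ((g * k) • q) ((g * k) • (g * k) • q) := by
      simp only [mul_smul]
      exact c6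
    have h1 := crit h (g * k) q c7
    rw [mul_smul] at h1
    refine le_trans ?_ (le_max_left _ _)
    rw [h1]
    have e1 := h.iso g q (k • q)
    have e2 := h.nn q p
    have e3 := h.nn (g • p) (g • q)
    have f1 := c2.1
    have f2 := c1.2
    unfold Bt at f1 f2 bb
    linarith

end Pool.Agent.LF.Z
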