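import Pool.Agent.Lib.LF.Z.Spec

/-!
# C43, block Z, Ov (helper19): common segment of two axes
-/

set_option autoImplicit false

namespace Pool.Agent.LF.Z

namespace OvAux

variable {K : Type} [Field K] [LinearOrder K] [IsStrictOrderedRing K] {X : Type}
  {S : AddSubgroup K} {d : X → X → K} {G : Type} [Group G] [MulAction G X] [Nonempty X]

theorem seg (h : Ac S d G) {R : G} {o r x y : X} (hr : r ∈ Ax d R)
    (hor : Bt d o r (R • r)) (hd : 2 * d o r + TL d R = d o (R • o)) (hx : Bt d o x (R • o))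
    (hy : Bt d o y (R • o)) (h1 : d o r ≤ d o x) (h2 : d o x ≤ d o y)
    (h3 : d o y ≤ d o r + TL d R) : Fw d R x y := by
  have er : d r (R • r) = TL d R := hr
  have e1 : d o (R • r) = d o r + TL d R := by
    unfold Bt at hor
    linarith
  have e2 := h.iso R r o
  have e3 := h.symm r o
  have b1 : Bt d o (R • r) (R • o) := by
    unfold Bt
    linarith
  have b0 : Bt d o r (R • o) := (h.in_l b1 hor).1
  have x1 : Bt d o x (R • r) := (h.two hx b1 (by linarith)).1
  have y1 : Bt d o y (R • r) := (h.two hy b1 (by linarith)).1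
  have x2 : Bt d r x (R • r) := (h.two hor x1 h1).2
  have y2 : Bt d r y (R • r) := (h.two hor y1 (by linarith)).2
  have x3 : Bt d o r x := (h.two b0 hx h1).1
  have y3 : Bt d o r y := (h.two b0 hy (by linarith)).1
  have xy : Bt d r x y := (h.two x2 y2 (by unfold Bt at x3 y3; linarith)).1
  have f1 := (h.fw_mid (h.fw_smul hr) y2).1
  exact (h.fw_mid f1 xy).2

end OvAux

open OvAux in
theorem pOv (hPj : S_Pj) : S_Ov := by
  intro K X G _ _ _ _ _ _ S d h P Q hP hPQ hTL hm
  have hL : 0 < TL d P := h.tl_pos hP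
  have hQ : Q ≠ 1 := by
    rintro rfl
    rw [h.tl_one] at hTL
    linarith
  have hPP := hPj K X G S d h
  obtain ⟨o, ho⟩ : ∃ o, d o ((Q⁻¹ * P) • o) = TL d (Q⁻¹ * P) := by
    obtain ⟨o, -, -, -, -, h5, -⟩ := h.exax (Q⁻¹ * P) (Classical.arbitrary X)
    exact ⟨o, by rw [h5]; rfl⟩
  have hm0 : 0 ≤ TL d (Q⁻¹ * P) := h.tl_nn _
  have ho2 : d (P • o) (Q • o) = TL d (Q⁻¹ * P) := by
    rw [← ho, mul_smul, ← h.iso Q o, smul_inv_smul, h.symm]
  obtain ⟨p, hp, -, hp2, hp3⟩ := hPP P o hP
  obtain ⟨q, hq, -, hq2, hq3⟩ := hPP Q o hQ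
  have hp4 := hp3 _ (h.ax_smul hp)
  have hq4 := hq3 _ (h.ax_smul hq)
  set m := TL d (Q⁻¹ * P) with hmdef
  set L := TL d P with hLdef
  have t1 := h.tri o (Q • o) (P • o)
  have t2 := h.tri o (P • o) (Q • o)
  have t3 := h.symm (Q • o) (P • o)
  have n1 := h.nn o p
  have n2 := h.nn o q
  have hcS := h.gpS o (P • o) (Q • o)
  set c := (d o (P • o) + d o (Q • o) - d (P • o) (Q • o)) / 2 with hc
  have hc2 : c = d o p + d o q + L - m / 2 := by
    rw [hc]
    linarith
  set s := max (d o p) (d o q) with hs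
  set t := min c (min (L + d o p) (L + d o q)) with ht
  have hsS : s ∈ S := by
    rw [hs]
    rcases max_choice (d o p) (d o q) with h1 | h1 <;> rw [h1] <;> exact h.mem _ _
  have htS : t ∈ S := by
    have hLS : L ∈ S := h.tl_mem P
    rw [ht]
    rcases min_choice c (min (L + d o p) (L + d o q)) with h1 | h1 <;> rw [h1]
    · exact hcS
    · rcases min_choice (L + d o p) (L + d o q) with h2 | h2 <;> rw [h2]
      · exact S.add_mem hLS (h.mem _ _)
      · exact S.add_mem hLS (h.mem _ _)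
  have hs1 : d o p ≤ s := le_max_left _ _
  have hs2 : d o q ≤ s := le_max_right _ _
  have ht1 : t ≤ c := min_le_left _ _
  have ht2 : t ≤ L + d o p := (min_le_right _ _).trans (min_le_left _ _)
  have ht3 : t ≤ L + d o q := (min_le_right _ _).trans (min_le_right _ _)
  have hts : L - m / 2 ≤ t - s := by
    have : s + (L - m / 2) ≤ t := by
      rw [ht]
      refine le_min ?_ (le_min ?_ ?_)
      · rcases max_choice (d o p) (d o q) with h1 | h1 <;> rw [hs, h1] <;> linarith
      · rcases max_choice (d o p) (d o q) with h1 | h1 <;> rw [hs, h1] <;> linarith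
      · rcases max_choice (d o p) (d o q) with h1 | h1 <;> rw [hs, h1] <;> linarith
    linarith
  obtain ⟨x, hx, hxs⟩ := h.ex o (P • o) hsS (by linarith) (by linarith)
  obtain ⟨y, hy, hyt⟩ := h.ex o (P • o) htS (by linarith) (by linarith)
  have hx' : Bt d o x (Q • o) := h.br hx (by linarith)
  have hy' : Bt d o y (Q • o) := h.br hy (by linarith)
  have hxy : Bt d o x y := (h.two hx hy (by linarith)).1
  have f1 : Fw d P x y := seg h hp hp4 hp2 hx hy (by linarith) (by linarith) (by linarith)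
  have f2 : Fw d Q x y := seg h hq hq4 hq2 hx' hy' (by linarith) (by linarith)
    (by rw [hTL]; linarith)
  have hdxy : d x y = t - s := by
    unfold Bt at hxy
    linarith
  refine ⟨x, y, f1, f2, by rw [hdxy]; exact hts, ?_⟩
  by_contra hcon
  push Not at hcon
  have e1 : d x (P • x) = L := f1.1
  have e2 : d x (Q • x) = L := by
    have : d x (Q • x) = TL d Q := f2.1
    rw [this, hTL]
  have b1 := (h.two (h.fw_bt' f1) (h.fw_bt f1) (by rw [e1]; exact hcon)).1
  have b2 := (h.two (h.fw_bt' f2) (h.fw_bt f2) (by rw [e2]; exact hcon)).1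
  have e3 : P • x = Q • x := h.uniq b1 b2 (by rw [e1, e2])
  have e4 : (Q⁻¹ * P) • x = x := by
    rw [mul_smul, e3, inv_smul_smul]
  have e5 := h.free (Q⁻¹ * P) x (by rw [e4, e4])
  exact hPQ (inv_mul_eq_one.mp e5).symm

end Pool.Agent.LF.Z
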