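import Pool.Agent.Lib.LF.Z.Spec

/-!
# C43, block Z: Ph, `Z^k` with the lexicographic order embeds into an ordered field
-/

set_option autoImplicit false

namespace Pool.Agent.LF.Z

open Hyperreal

/-- the value of a vector: `a 0 ω ^ (k - 1) + ... + a (k - 1)` -/
noncomputable def phv : (k : ℕ) → (Fin k → ℤ) → Hyperreal
  | 0, _ => 0
  | k + 1, a => (a 0 : Hyperreal) * omega ^ k + phv k (fun i => a i.succ)

theorem phv_add (k : ℕ) (a b : Fin k → ℤ) : phv k (fun i => a i + b i) = phv k a + phv k b := by
  induction k with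
  | zero => simp [phv]
  | succ k ih =>
    simp only [phv]
    rw [ih (fun i => a i.succ) (fun i => b i.succ)]
    push_cast
    ring

theorem phv_zero (k : ℕ) : phv k (fun _ => 0) = 0 := by
  induction k with
  | zero => simp [phv]
  | succ k ih =>
    simp only [phv]
    rw [ih]
    simp

theorem phv_bd (k : ℕ) (a : Fin k → ℤ) : |phv k a| < omega ^ k := by
  induction k with
  | zero => simp [phv]
  | succ k ih =>
    simp only [phv]
    have h1 := ih (fun i => a i.succ)
    have h2 : |(a 0 : Hyperreal)| + 1 < omega := by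
      have := coe_lt_omega (|(a 0 : ℝ)| + 1)
      have e : ((|(a 0 : ℝ)| + 1 : ℝ) : Hyperreal) = |(a 0 : Hyperreal)| + 1 := by
        push_cast
        rfl
      rw [e] at this
      exact this
    have h3 : (0 : Hyperreal) < omega ^ k := pow_pos omega_pos k
    calc |(a 0 : Hyperreal) * omega ^ k + phv k (fun i => a i.succ)|
        ≤ |(a 0 : Hyperreal) * omega ^ k| + |phv k (fun i => a i.succ)| := abs_add_le _ _
      _ < |(a 0 : Hyperreal)| * omega ^ k + omega ^ k := by
          rw [abs_mul, abs_of_pos h3]
          linarith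
      _ = (|(a 0 : Hyperreal)| + 1) * omega ^ k := by ring
      _ ≤ omega * omega ^ k := by
          exact mul_le_mul_of_nonneg_right h2.le h3.le
      _ = omega ^ (k + 1) := by ring

theorem phv_pos (k : ℕ) (a : Fin k → ℤ) (i : Fin k) (h0 : ∀ j < i, a j = 0) (hi : 0 < a i) :
    0 < phv k a := by
  induction k with
  | zero => exact i.elim0
  | succ k ih =>
    simp only [phv]
    rcases Fin.eq_zero_or_eq_succ i with rfl | ⟨i', rfl⟩
    · have h1 := phv_bd k (fun i => a i.succ)
      have h2 : (1 : Hyperreal) ≤ (a 0 : Hyperreal) := by exact_mod_cast hi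
      have h3 : (0 : Hyperreal) < omega ^ k := pow_pos omega_pos k
      have h4 := (abs_lt.1 h1).1
      have h5 := mul_le_mul_of_nonneg_right h2 h3.le
      linarith
    · have h1 := ih (fun i => a i.succ) i' (fun j hj => h0 j.succ (Fin.succ_lt_succ_iff.2 hj)) hi
      rw [h0 0 (Fin.succ_pos i')]
      simpa using h1

theorem pPh : S_Ph := by
  intro k
  refine ⟨Hyperreal, inferInstance, inferInstance, inferInstance,
    { toFun := fun a => phv k (ofLex a)
      map_zero' := phv_zero k
      map_add' := fun a b => phv_add k (ofLex a) (ofLex b) }, ?_⟩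
  intro a b hab
  obtain ⟨i, h1, h2⟩ := hab
  have h3 := phv_pos k (fun j => ofLex b j - ofLex a j) i (fun j hj => sub_eq_zero.2 (h1 j hj).symm)
    (sub_pos.2 h2)
  have h4 := phv_add k (fun j => ofLex b j - ofLex a j) (ofLex a)
  have h5 : (fun i => (ofLex b i - ofLex a i) + ofLex a i) = ofLex b := by
    funext i
    ring
  rw [h5] at h4
  change phv k (ofLex a) < phv k (ofLex b)
  rw [h4]
  linarith

end Pool.Agent.LF.Z
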