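import Pool.Agent.Lib.LF.Z.Spec

/-!
# C43, Z/Pj: projection to an axis (helper82)
-/

set_option autoImplicit false

namespace Pool.Agent.LF.Z

namespace PjAux

variable {K : Type} [Field K] [LinearOrder K] [IsStrictOrderedRing K] {X : Type}
  {S : AddSubgroup K} {d : X → X → K}

/-- The four point argument. -/
theorem step (h : TT S d) {x q q' y : X} {l : K} (h1 : d x q' = d x q + l) (h2 : d q' q = l)
    (h3 : d q' y < l + d q y) : Bt d x q y := by
  unfold Bt
  have h4 := h.tri x q y
  rcases h.h4 x q' q y with h5 | h5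
  · exfalso
    rw [h1] at h5
    linarith
  · rw [h1, h2] at h5
    exact le_antisymm (by linarith) h4

end PjAux

open PjAux

/-- **Pj.** Projection to an axis. -/
theorem pPj : S_Pj := by
  intro K X G _ _ _ _ _ _ S d h g x hg
  obtain ⟨q, hq1, hq2, hq3, hq4, hq5, -⟩ := h.exax g x
  rw [h.tl g x] at hq4 hq5
  have hqA : q ∈ Ax d g := hq5
  refine ⟨q, hqA, hq1, hq4, ?_⟩
  intro y hy
  have hl := h.tl_pos hg
  by_cases hyq : y = q
  · subst hyq
    exact h.bt_end x y
  have hpos : 0 < d q y := h.pos fun e => hyq e.symm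
  have hsm : d y q = d q y := h.symm y q
  rcases h.fw_total hqA hy with h1 | h1
  · have h2 : d x (g • q) = d x q + TL d g := by
      have : d x q + d q (g • q) = d x (g • q) := hq3
      rw [← this, hq5]
    have h3 : d (g • q) q = TL d g := by
      rw [h.symm]
      exact hq5
    refine step h.toTT h2 h3 ?_
    have h4 := h.co_fw hg hqA h1
    have h5 := h.co_smul hg hqA hqA
    rw [h.co_self] at h4 h5
    rw [h.co_dist hg hqA (h.ax_smul hqA) hy, abs_lt]
    constructor <;> linarith
  · have hq' : g⁻¹ • q ∈ Ax d g := by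
      show d (g⁻¹ • q) (g • g⁻¹ • q) = TL d g
      rw [smul_inv_smul, ← h.iso g, smul_inv_smul]
      exact hq5
    have h2 : d x (g⁻¹ • q) = d x q + TL d g := by
      rw [← h.iso g, smul_inv_smul, h.symm]
      have : d x q + d q (g • x) = d x (g • x) := hq1
      linarith
    have h3 : d (g⁻¹ • q) q = TL d g := by
      rw [← h.iso g, smul_inv_smul]
      exact hq5
    refine step h.toTT h2 h3 ?_
    have h4 := h.co_fw hg hqA h1
    have h5 := h.co_smul hg hqA hq'
    rw [smul_inv_smul] at h5
    rw [h.co_self] at h4 h5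
    rw [h.co_dist hg hqA hq' hy, abs_lt]
    constructor <;> linarith

end Pool.Agent.LF.Z
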