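import Pool.Agent.Lib.LF.Z.Spec

/-!
# C43 (MP_2c257b_al), Z/Pr: products of coherent translations (helper25, task 12761)
-/

set_option autoImplicit false

namespace Pool.Agent.LF.Z

namespace PrAux

variable {K X G : Type} [Field K] [LinearOrder K] [IsStrictOrderedRing K] [Group G]
  [MulAction G X] [Nonempty X] {S : AddSubgroup K} {d : X → X → K}

/-- a point near `x` on `[x, y]`, `[x, a x]` and `[x, b x]` -/
theorem near (h : Ac S d G) {a b : G} {x y : X} (ha : a ≠ 1) (hb : b ≠ 1) (hxy : x ≠ y)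
    (h1 : Fw d a x y) (h2 : Fw d b x y) : ∃ z, x ≠ z ∧ Bt d x z y ∧ Bt d x z (a • x) ∧
      Bt d x z (b • x) ∧ Fw d a x z ∧ Fw d b x z := by
  have hA := h.tl_pos ha
  have hB := h.tl_pos hb
  have hD := h.pos hxy
  have hS : min (d x y) (min (TL d a) (TL d b)) ∈ S := by
    rcases min_choice (TL d a) (TL d b) with e | e <;> rw [e]
    · rcases min_choice (d x y) (TL d a) with e' | e' <;> rw [e']
      · exact h.mem _ _
      · exact h.tl_mem _
    · rcases min_choice (d x y) (TL d b) with e' | e' <;> rw [e']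
      · exact h.mem _ _
      · exact h.tl_mem _
  have h0 : 0 < min (d x y) (min (TL d a) (TL d b)) := lt_min hD (lt_min hA hB)
  obtain ⟨z, hz, hz'⟩ := h.ex x y hS h0.le (min_le_left _ _)
  have hza := (h.fw_mid h1 hz).1
  have hzb := (h.fw_mid h2 hz).1
  refine ⟨z, fun e => ?_, hz, ?_, ?_, hza, hzb⟩
  · rw [← e, h.self] at hz'
    exact h0.ne hz'
  · refine (h.two (h.fw_bt hza) (h.fw_bt' hza) ?_).1
    have e : d x (a • x) = TL d a := h1.1
    rw [hz', e]
    exact (min_le_right _ _).trans (min_le_left _ _)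
  · refine (h.two (h.fw_bt hzb) (h.fw_bt' hzb) ?_).1
    have e : d x (b • x) = TL d b := h2.1
    rw [hz', e]
    exact (min_le_right _ _).trans (min_le_right _ _)

theorem one (h : Ac S d G) {a b : G} {x y : X} (ha : a ≠ 1) (hb : b ≠ 1) (hxy : x ≠ y)
    (h1 : Fw d a x y) (h2 : Fw d b x y) : Bt d x (a • x) (a • b • x) ∧
      d x (a • b • x) = TL d a + TL d b := by
  obtain ⟨z, hxz, -, hza, hzb, hfa, -⟩ := near h ha hb hxy h1 h2
  have k1 := (h.lg (h.fw_bt' hfa) (h.bt a hzb) fun e => hxz (MulAction.injective a e)).2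
  refine ⟨k1, ?_⟩
  have e1 : d x (a • x) = TL d a := h1.1
  have e2 : d (a • x) (a • b • x) = TL d b := (h.iso a x (b • x)).trans h2.1
  have k2 : d x (a • x) + d (a • x) (a • b • x) = d x (a • b • x) := k1
  rw [← k2, e1, e2]

theorem inv_fw (h : Ac S d G) {a : G} {x y : X} (h1 : Fw d a x y) : Fw d a⁻¹ y x := by
  have key : ∀ p q : X, d p (a⁻¹ • q) = d q (a • p) := fun p q => by
    rw [← h.iso a, smul_inv_smul, h.symm]
  refine ⟨?_, ?_, ?_⟩
  · show d y (a⁻¹ • y) = TL d a⁻¹
    rw [key, h.tl_inv]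
    exact h1.2.1
  · show d x (a⁻¹ • x) = TL d a⁻¹
    rw [key, h.tl_inv]
    exact h1.1
  · rw [key, h.tl_inv, h1.2.2, h.symm]

end PrAux

theorem pPr : S_Pr := by
  intro K X G _ _ _ _ _ _ S d h a b x y ha hb hxy h1 h2
  obtain ⟨z, hxz, hzy, hza, hzb, hfa, hfb⟩ := PrAux.near h ha hb hxy h1 h2
  obtain ⟨k1, k2⟩ := PrAux.one h ha hb hxy h1 h2
  -- the segment from `a⁻¹ x`
  have c1 : Bt d (a⁻¹ • x) x z := by
    have := h.bt a⁻¹ (h.fw_bt' hfa)
    rwa [inv_smul_smul, inv_smul_smul] at this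
  have c2 : Bt d (a⁻¹ • x) x (b • x) := (h.lg c1 hzb hxz).2
  have hxb : x ≠ b • x := by
    intro e
    have e1 : d x (b • x) = TL d b := h2.1
    rw [← e, h.self] at e1
    exact (h.tl_pos hb).ne e1
  have c3 : Bt d (a⁻¹ • x) (b • x) (b • z) := (h.lg c2 (h.fw_bt' hfb) hxb).1
  have c4 : Bt d x (a • b • x) (a • b • z) := by
    have := h.bt a c3
    rwa [smul_inv_smul] at this
  have c5 : Bt d x z (a • b • x) := (h.in_l k1 hza).1
  have c6 : Bt d (a • b • x) (a • b • z) (a • b • a • b • x) := h.bt a (h.bt b c5)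
  have c7 := (h.lg c4 c6 fun e => hxz (MulAction.injective b (MulAction.injective a e))).2
  have e1 : d (a • b • x) (a • b • a • b • x) = TL d a + TL d b := by
    rw [h.iso, h.iso, k2]
  have e2 : TL d (a * b) = TL d a + TL d b := by
    rw [← h.tl (a * b) x]
    simp only [mul_smul]
    have c8 : d x (a • b • x) + d (a • b • x) (a • b • a • b • x) =
      d x (a • b • a • b • x) := c7
    rw [← c8, e1]
    ring
  refine ⟨e2, ?_⟩
  have hx : x ∈ Ax d (a * b) := by
    show d x ((a * b) • x) = TL d (a * b)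
    rw [mul_smul, k2, e2]
  have hy : y ∈ Ax d (a * b) := by
    show d y ((a * b) • y) = TL d (a * b)
    obtain ⟨-, k3⟩ := PrAux.one h (inv_ne_one.2 hb) (inv_ne_one.2 ha) hxy.symm
      (PrAux.inv_fw h h2) (PrAux.inv_fw h h1)
    rw [h.tl_inv, h.tl_inv, ← h.iso b, smul_inv_smul, ← h.iso a, smul_inv_smul, h.symm] at k3
    rw [mul_smul, k3, e2]
    ring
  rcases h.fw_total hx hy with h3 | h3
  · exact h3
  · exfalso
    have h4 := h3.2.2
    rw [mul_smul] at h4
    have h5 := h.tri y z (a • b • x)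
    have h6 : d x z + d z y = d x y := hzy
    have h7 : d x z + d z (a • b • x) = d x (a • b • x) := c5
    have h8 := h.pos hxz
    have h9 := h.symm y z
    have h10 := h.symm y x
    linarith

end Pool.Agent.LF.Z
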