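import Pool.Agent.Lib.LF.Z.Spec

/-!
# C43, Z/Py: infinite descent for the leading coordinate (helper82)
-/

set_option autoImplicit false

namespace Pool.Agent.LF.Z

namespace PyAux

/-- The leading coordinate of a positive element is positive. -/
theorem lead_pos {k : ℕ} (v : Lex (Fin k → ℤ)) (hv : 0 < v) (p : Fin k)
    (h0 : ∀ q < p, (ofLex v) q = 0) (hp : (ofLex v) p ≠ 0) : 0 < (ofLex v) p := by
  obtain ⟨r, hr1, hr2⟩ := hv
  have h1 : ∀ j < r, (0 : ℤ) = (ofLex v) j := hr1
  have h2 : (0 : ℤ) < (ofLex v) r := hr2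
  rcases lt_trichotomy r p with h | h | h
  · rw [h0 r h] at h2
    exact absurd h2 (lt_irrefl _)
  · rw [← h]
    exact h2
  · exact absurd (h1 p h).symm hp

theorem odd_ne {e : ℕ} {x m : ℤ} (h : x = 2 ^ e * (2 * m + 1)) : x ≠ 0 := by
  rw [h]
  refine mul_ne_zero (pow_ne_zero _ two_ne_zero) ?_
  omega

theorem sum_lt (f : Fin 3 → ℤ) (hf : ∀ l, 0 < f l) (i : Fin 3) :
    ∑ l, Function.update f i (f i - f (i + 1) - f (i + 2)) l < ∑ l, f l := by
  rw [Finset.sum_update_of_mem (Finset.mem_univ i)]
  have h1 := Finset.add_sum_erase Finset.univ f (Finset.mem_univ i)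
  have h2 : ∑ x ∈ Finset.univ \ {i}, f x = ∑ x ∈ Finset.univ.erase i, f x := by
    rw [Finset.sdiff_singleton_eq_erase]
  rw [h2, ← h1]
  have := hf (i + 1)
  have := hf (i + 2)
  linarith

end PyAux

open PyAux

/-- **Py.** Infinite descent for the leading coordinate. -/
theorem pPy : S_Py := by
  intro k P hpos hstep y hy p hy0 e hodd
  have key : ∀ N : ℕ, ∀ y : Fin 3 → Lex (Fin k → ℤ), P y → (∀ q < p, ∀ i, (ofLex (y i)) q = 0) →
      (∀ i, ∃ m : ℤ, (ofLex (y i)) p = 2 ^ e * (2 * m + 1)) →
      ∑ l, (ofLex (y l)) p ≤ N → False := by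
    intro N
    induction N with
    | zero =>
      intro y hy hy0 hodd hN
      have h1 : ∀ l, 0 < (ofLex (y l)) p := fun l => by
        obtain ⟨m, hm⟩ := hodd l
        exact lead_pos (y l) (hpos y hy l) p (fun q hq => hy0 q hq l) (odd_ne hm)
      have h2 : 0 < ∑ l, (ofLex (y l)) p :=
        Finset.sum_pos (fun l _ => h1 l) Finset.univ_nonempty
      have h3 : ∑ l, (ofLex (y l)) p ≤ 0 := by exact_mod_cast hN
      omega
    | succ N ih =>
      intro y hy hy0 hodd hN
      have h1 : ∀ l, 0 < (ofLex (y l)) p := fun l => by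
        obtain ⟨m, hm⟩ := hodd l
        exact lead_pos (y l) (hpos y hy l) p (fun q hq => hy0 q hq l) (odd_ne hm)
      obtain ⟨i, hi⟩ := hstep y hy
      have hval : ∀ (q : Fin k) (l : Fin 3),
          (ofLex (Function.update y i (y i - y (i + 1) - y (i + 2)) l)) q =
          Function.update (fun l => (ofLex (y l)) q) i
            ((ofLex (y i)) q - (ofLex (y (i + 1))) q - (ofLex (y (i + 2))) q) l := by
        intro q l
        by_cases hl : l = i
        · subst hl
          rw [Function.update_self, Function.update_self]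
          rfl
        · rw [Function.update_of_ne hl, Function.update_of_ne hl]
      refine ih _ hi ?_ ?_ ?_
      · intro q hq l
        rw [hval q l]
        by_cases hl : l = i
        · subst hl
          rw [Function.update_self, hy0 q hq, hy0 q hq, hy0 q hq]
          ring
        · rw [Function.update_of_ne hl]
          exact hy0 q hq l
      · intro l
        rw [hval p l]
        by_cases hl : l = i
        · subst hl
          rw [Function.update_self]
          obtain ⟨m1, hm1⟩ := hodd l
          obtain ⟨m2, hm2⟩ := hodd (l + 1)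
          obtain ⟨m3, hm3⟩ := hodd (l + 2)
          refine ⟨m1 - m2 - m3 - 1, ?_⟩
          rw [hm1, hm2, hm3]
          ring
        · rw [Function.update_of_ne hl]
          exact hodd l
      · have h2 := sum_lt (fun l => (ofLex (y l)) p) h1 i
        have h3 : ∑ l, (ofLex (Function.update y i (y i - y (i + 1) - y (i + 2)) l)) p =
            ∑ l, Function.update (fun l => (ofLex (y l)) p) i
              ((ofLex (y i)) p - (ofLex (y (i + 1))) p - (ofLex (y (i + 2))) p) l :=
          Finset.sum_congr rfl fun l _ => hval p l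
        rw [h3]
        push_cast at hN
        have h4 := lt_of_lt_of_le h2 hN
        exact Int.lt_add_one_iff.1 h4
  have h5 : ∑ l, (ofLex (y l)) p ≤ ((∑ l, (ofLex (y l)) p).toNat : ℤ) := Int.self_le_toNat _
  exact key _ y hy hy0 hodd h5

end Pool.Agent.LF.Z
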