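import Pool.Agent.Lib.LF.Z.Spec

/-!
# C43, block Z, `S_Sg` (helper59): translation on the common segment of the axes of `a b` and `b a`
-/

set_option autoImplicit false

namespace Pool.Agent.LF.Z

namespace SgAux

variable {K : Type} [Field K] [LinearOrder K] [IsStrictOrderedRing K] {X : Type}
  {S : AddSubgroup K} {d : X → X → K} {G : Type} [Group G] [MulAction G X]

theorem mv (h : Ac S d G) {b : G} (hb : b ≠ 1) (x : X) : 0 < d x (b • x) := by
  apply h.pos
  intro e
  apply hb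
  apply h.free b x
  rw [← e, ← e]

variable [Nonempty X]

theorem c1 (h : Ac S d G) {b P Q : G} (hQ1 : Q ≠ 1) (hb : b ≠ 1)
    (hc : ∀ p q, Fw d P p q → Fw d Q (b • p) (b • q)) {x y : X} (hxy : x ≠ y)
    (hP : Fw d P x y) (hQ : Fw d Q x y) (hf : Fw d Q x (b • x)) :
    TL d b = d x (b • x) ∧ Fw d b x y := by
  have he := mv h hb x
  have hδ := h.pos hxy
  have ho : x ∈ Ax d Q := hQ.1
  have k0 := h.co_self Q x
  obtain ⟨z, hz, hz'⟩ := h.ex x y (s := min (d x y) (d x (b • x))) (by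
      rcases min_choice (d x y) (d x (b • x)) with e | e <;> rw [e] <;> exact h.mem _ _)
    (le_min hδ.le he.le) (min_le_left _ _)
  have hr : 0 < d x z := by rw [hz']; exact lt_min hδ he
  have hr2 : d x z ≤ d x (b • x) := by rw [hz']; exact min_le_right _ _
  have q1 : Fw d Q x z := (h.fw_mid hQ hz).1
  have q2 : Fw d Q (b • x) (b • z) := hc _ _ (h.fw_mid hP hz).1
  have kz := h.co_fw hQ1 ho q1
  have kbx := h.co_fw hQ1 ho hf
  have q3 : Fw d Q z (b • x) := (h.co_le hQ1 ho q1.2.1 hf.2.1).2 (by linarith)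
  have b1 : Bt d x z (b • x) := (h.fw_trans hQ1 q1 q3).2
  have b2 : Bt d x (b • x) (b • z) := (h.fw_trans hQ1 hf q2).2
  have b3 : Bt d (b • x) (b • z) (b • b • x) := h.bt b b1
  have ne : b • x ≠ b • z := by
    intro e
    have := h.iso b x z
    rw [e, h.self] at this
    linarith
  have b4 : d x (b • x) + d (b • x) (b • b • x) = d x (b • b • x) := (h.lg b2 b3 ne).2
  rw [h.iso] at b4
  have hT := h.tl b x
  have hT' : TL d b = d x (b • x) := by linarith
  have q4 : Fw d Q (b • x) (b • y) := hc _ _ hP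
  have ky := h.co_fw hQ1 ho hQ
  have kby := h.co_fw hQ1 ho q4
  rw [h.iso] at kby
  have q5 : Fw d Q y (b • y) := (h.co_le hQ1 ho hQ.2.1 q4.2.1).2 (by linarith)
  have q6 : Fw d Q x (b • y) := (h.co_le hQ1 ho ho q4.2.1).2 (by linarith)
  have k5 := h.co_fw hQ1 ho q5
  have k6 := h.co_fw hQ1 ho q6
  refine ⟨hT', hT'.symm, ?_, ?_⟩
  · show d y (b • y) = TL d b
    linarith
  · linarith

theorem c2 (h : Ac S d G) {b P Q : G} (hQ1 : Q ≠ 1) (hb : b ≠ 1)
    (hc : ∀ p q, Fw d P p q → Fw d Q (b • p) (b • q)) {x y : X} (hxy : x ≠ y)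
    (hP : Fw d P x y) (hQ : Fw d Q x y) (hf : Fw d Q (b • x) x) :
    TL d b = d x (b • x) := by
  have he := mv h hb x
  have hδ := h.pos hxy
  have ho : x ∈ Ax d Q := hQ.1
  have k0 := h.co_self Q x
  obtain ⟨z, hz, hz'⟩ := h.ex x y (s := d x y - min (d x y) (d x (b • x))) (by
      rcases min_choice (d x y) (d x (b • x)) with e | e <;> rw [e] <;>
        exact S.sub_mem (h.mem _ _) (h.mem _ _))
    (by linarith [min_le_left (d x y) (d x (b • x))])
    (by linarith [lt_min hδ he])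
  have hzy : d x z + d z y = d x y := hz
  have hr : 0 < d z y := by
    have := lt_min hδ he
    linarith
  have hr2 : d z y ≤ d x (b • x) := by
    have := min_le_right (d x y) (d x (b • x))
    linarith
  obtain ⟨q1, q1'⟩ := h.fw_mid hQ hz
  obtain ⟨p1, p1'⟩ := h.fw_mid hP hz
  have q2 : Fw d Q (b • x) (b • z) := hc _ _ p1
  have q2' : Fw d Q (b • z) (b • y) := hc _ _ p1'
  have q4 : Fw d Q (b • x) (b • y) := hc _ _ hP
  have kz := h.co_fw hQ1 ho q1
  have ky := h.co_fw hQ1 ho hQ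
  have kbx := h.co_fw hQ1 ho hf
  have kby := h.co_fw hQ1 ho q4
  have sy := h.symm x (b • x)
  rw [h.iso] at kby
  have q5 : Fw d Q (b • y) z := (h.co_le hQ1 ho q4.2.1 q1.2.1).2 (by linarith)
  have b1 : Bt d y z (b • y) := h.bt_symm (h.fw_trans hQ1 q5 q1').2
  have b3 : Bt d (b • y) (b • z) (b • b • y) := h.bt b b1
  have q6 : Fw d Q (b • y) y := (h.co_le hQ1 ho q4.2.1 hQ.2.1).2 (by linarith)
  have b2 : Bt d y (b • y) (b • z) := h.bt_symm (h.fw_trans hQ1 q2' q6).2
  have ne : b • y ≠ b • z := by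
    intro e
    have := h.iso b z y
    rw [e, h.self] at this
    linarith
  have b4 : d y (b • y) + d (b • y) (b • b • y) = d y (b • b • y) := (h.lg b2 b3 ne).2
  rw [h.iso] at b4
  have hT := h.tl b y
  have k6 := h.co_fw hQ1 ho q6
  have sy' := h.symm y (b • y)
  linarith

end SgAux

theorem pSg : S_Sg := by
  intro K X G _ _ _ _ _ _ S d h a b x y ha hb hab hxy hP hQ
  have hba : b * a ≠ 1 := by
    intro e
    apply hab
    rw [mul_eq_one_iff_eq_inv] at e
    rw [e, mul_inv_cancel]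
  have hc : ∀ p q, Fw d (a * b) p q → Fw d (b * a) (b • p) (b • q) := by
    intro p q hpq
    have h1 := h.fw_conj b hpq
    have e : b * (a * b) * b⁻¹ = b * a := by group
    rw [e] at h1
    exact h1
  have hc' : ∀ p q, Fw d (b * a) p q → Fw d (a * b) (a • p) (a • q) := by
    intro p q hpq
    have h1 := h.fw_conj a hpq
    have e : a * (b * a) * a⁻¹ = a * b := by group
    rw [e] at h1
    exact h1
  have hL := h.tl_pos hab
  have hTa := h.tl_pos ha
  have hTb := h.tl_pos hb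
  have ho : x ∈ Ax d (a * b) := hP.1
  have k0 := h.co_self (a * b) x
  have k1 := h.co_smul hab ho ho
  rw [mul_smul] at k1
  have x1 : b • x ∈ Ax d (b * a) := (hc _ _ (h.fw_refl hP.1)).1
  have x2 : a • x ∈ Ax d (a * b) := (hc' _ _ (h.fw_refl hQ.1)).1
  have sa := h.symm x (a • x)
  have sb := h.symm x (b • x)
  rcases h.fw_total hQ.1 x1 with hb1 | hb1
  · obtain ⟨e1, e2⟩ := SgAux.c1 h hba hb hc hxy hP hQ hb1
    have k2 := h.co_fw hab ho (hc' _ _ hb1)
    rw [h.iso] at k2
    rcases h.fw_total hP.1 x2 with ha1 | ha1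
    · obtain ⟨e3, e4⟩ := SgAux.c1 h hab ha hc' hxy hQ hP ha1
      have k3 := h.co_fw hab ho ha1
      left
      exact ⟨by linarith, e4, e2⟩
    · have e3 := SgAux.c2 h hab ha hc' hxy hQ hP ha1
      have k3 := h.co_fw hab ho ha1
      right
      left
      linarith
  · have e1 := SgAux.c2 h hba hb hc hxy hP hQ hb1
    have k2 := h.co_fw hab ho (hc' _ _ hb1)
    rw [h.iso] at k2
    rcases h.fw_total hP.1 x2 with ha1 | ha1
    · obtain ⟨e3, e4⟩ := SgAux.c1 h hab ha hc' hxy hQ hP ha1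
      have k3 := h.co_fw hab ho ha1
      right
      right
      linarith
    · have e3 := SgAux.c2 h hab ha hc' hxy hQ hP ha1
      have k3 := h.co_fw hab ho ha1
      exfalso
      linarith

end Pool.Agent.LF.Z
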