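import Pool.Agent.Lib.LF.Z.Spec

set_option autoImplicit false
set_option linter.unusedSectionVars false
set_option linter.unusedVariables false

namespace Pool.Agent.LF.Z

namespace TrAux

variable {K X G : Type} [Field K] [LinearOrder K] [IsStrictOrderedRing K] [Group G]
  [MulAction G X] [Nonempty X] {S : AddSubgroup K} {d : X → X → K}

theorem abs_co (h : Ac S d G) {g : G} (hg : g ≠ 1) {o z : X} (ho : o ∈ Ax d g)
    (hz : z ∈ Ax d g) : |co d g o z| = d o z := by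
  rw [h.co_dist hg ho ho hz, h.co_self, zero_sub, abs_neg]

theorem alg1 {α β D : K} (hD : 0 < D) (h1 : |α| = |β|) (h2 : |α + D| = |β + D|) : α = β := by
  rcases abs_eq_abs.1 h1 with e | e
  · exact e
  · rcases abs_eq_abs.1 h2 with e' | e'
    · linarith
    · exfalso
      linarith

theorem alg2 {u v α α' : K} (hne : α < α') (h0 : |u| = |v|) (h1 : |u - α| = |v - α|)
    (h2 : |u - α'| = |v - α'|) : u = v := by
  rcases abs_eq_abs.1 h0 with e | e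
  · exact e
  · rcases abs_eq_abs.1 h1 with e1 | e1
    · linarith
    · rcases abs_eq_abs.1 h2 with e2 | e2
      · linarith
      · linarith

theorem agree (h : Ac S d G) {g k : G} (hg : g ≠ 1) (hk : k ≠ 1) {o x y : X}
    (hog : o ∈ Ax d g) (hok : o ∈ Ax d k) (hxy : x ≠ y) (h1 : Fw d g x y) (h2 : Fw d k x y) :
    ∀ z, z ∈ Ax d g → z ∈ Ax d k → co d g o z = co d k o z := by
  have e1 := h.co_fw hg hog h1
  have e2 := h.co_fw hk hok h2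
  have hpos := h.pos hxy
  have ax := abs_co h hg hog h1.1
  have ax' := abs_co h hk hok h2.1
  have ay := abs_co h hg hog h1.2.1
  have ay' := abs_co h hk hok h2.2.1
  have hx : co d g o x = co d k o x := by
    apply alg1 hpos (ax.trans ax'.symm)
    have f1 : co d g o x + d x y = co d g o y := by linarith
    have f2 : co d k o x + d x y = co d k o y := by linarith
    rw [f1, f2, ay, ay']
  have hy : co d g o y = co d k o y := by linarith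
  intro z hz hz'
  apply alg2 (α := co d g o x) (α' := co d g o y) (by linarith)
  · rw [abs_co h hg hog hz, abs_co h hk hok hz']
  · rw [← h.co_dist hg hog hz h1.1, hx, ← h.co_dist hk hok hz' h2.1]
  · rw [← h.co_dist hg hog hz h1.2.1, hy, ← h.co_dist hk hok hz' h2.2.1]

/-- a common point with the coordinate `s` for a pair of axes -/
structure PP (d : X → X → K) (g k : G) (o Y : X) (s : K) : Prop where
  ag : Y ∈ Ax d g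
  ak : Y ∈ Ax d k
  cg : co d g o Y = s
  ck : co d k o Y = s

theorem PP.symm {g k : G} {o Y : X} {s : K} (p : PP d g k o Y s) : PP d k g o Y s :=
  ⟨p.ak, p.ag, p.ck, p.cg⟩

theorem pair (h : Ac S d G) {g k : G} (hg : g ≠ 1) (hk : k ≠ 1) {o x y : X} {σ : K}
    (hog : o ∈ Ax d g) (hok : o ∈ Ax d k) (hxy : x ≠ y) (h1 : Fw d g x y) (h2 : Fw d k x y)
    (hσ : σ ≤ d x y) : ∃ (A B : X) (H M : K), 0 ≤ H ∧ 0 ≤ M ∧ σ ≤ M + H ∧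
      PP d g k o A (-H) ∧ PP d g k o B M := by
  have hag := agree h hg hk hog hok hxy h1 h2
  have e1 := h.co_fw hg hog h1
  have hx := hag x h1.1 h2.1
  have hy := hag y h1.2.1 h2.2.1
  have po : PP d g k o o 0 := ⟨hog, hok, h.co_self _ _, h.co_self _ _⟩
  have px : PP d g k o x (co d g o x) := ⟨h1.1, h2.1, rfl, hx.symm⟩
  have py : PP d g k o y (co d g o y) := ⟨h1.2.1, h2.2.1, rfl, hy.symm⟩
  rcases le_total (co d g o x) 0 with c1 | c1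
  · rcases le_total 0 (co d g o y) with c2 | c2
    · refine ⟨x, y, -co d g o x, co d g o y, by linarith, c2, by linarith, ?_, py⟩
      rw [neg_neg]
      exact px
    · refine ⟨x, o, -co d g o x, 0, by linarith, le_refl _, by linarith, ?_, po⟩
      rw [neg_neg]
      exact px
  · rcases le_total 0 (co d g o y) with c2 | c2
    · refine ⟨o, y, 0, co d g o y, le_refl _, c2, by linarith, ?_, py⟩
      rw [neg_zero]
      exact po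
    · refine ⟨o, o, 0, 0, le_refl _, le_refl _, by linarith [h.pos hxy], ?_, po⟩
      rw [neg_zero]
      exact po

theorem share (h : Ac S d G) {g k m : G} (hk : k ≠ 1) {o Y Y' : X} {s s' : K}
    (hok : o ∈ Ax d k) (hom : o ∈ Ax d m) (p : PP d g k o Y s) (p' : PP d k m o Y' s')
    (hs : (0 ≤ s ∧ s ≤ s') ∨ (s' ≤ s ∧ s ≤ 0)) : Y ∈ Ax d m := by
  rcases hs with ⟨h1, h2⟩ | ⟨h1, h2⟩
  · have f1 : Fw d k o Y := (h.co_le hk hok hok p.ak).2 (by rw [h.co_self, p.ck]; exact h1)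
    have f2 : Fw d k Y Y' := (h.co_le hk hok p.ak p'.ag).2 (by rw [p.ck, p'.cg]; exact h2)
    exact h.ax_mid hom p'.ak (h.fw_trans hk f1 f2).2
  · have f1 : Fw d k Y o := (h.co_le hk hok p.ak hok).2 (by rw [h.co_self, p.ck]; exact h2)
    have f2 : Fw d k Y' Y := (h.co_le hk hok p'.ag p.ak).2 (by rw [p.ck, p'.cg]; exact h1)
    exact h.ax_mid p'.ak hom (h.fw_trans hk f2 f1).2

/-- a point on the three axes -/
structure P3 (d : X → X → K) (a b c : G) (o Y : X) (s : K) : Prop where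
  aa : Y ∈ Ax d a
  ab : Y ∈ Ax d b
  ac : Y ∈ Ax d c
  ca : co d a o Y = s
  cb : co d b o Y = s
  cc : co d c o Y = s

theorem three (h : Ac S d G) {a b c : G} (ha : a ≠ 1) (hb : b ≠ 1) (hc : c ≠ 1) {o : X}
    (oa : o ∈ Ax d a) (ob : o ∈ Ax d b) (oc : o ∈ Ax d c)
    (g1 : ∀ z, z ∈ Ax d a → z ∈ Ax d b → co d a o z = co d b o z)
    (g2 : ∀ z, z ∈ Ax d b → z ∈ Ax d c → co d b o z = co d c o z)
    (g3 : ∀ z, z ∈ Ax d a → z ∈ Ax d c → co d a o z = co d c o z)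
    {Y1 Y2 Y3 : X} {s1 s2 s3 : K} (p1 : PP d a b o Y1 s1) (p2 : PP d b c o Y2 s2)
    (p3 : PP d a c o Y3 s3) :
    (∀ _ : (0 ≤ s1 ∧ (s1 ≤ s2 ∨ s1 ≤ s3)) ∨ ((s2 ≤ s1 ∨ s3 ≤ s1) ∧ s1 ≤ 0),
      P3 d a b c o Y1 s1) ∧
    (∀ _ : (0 ≤ s2 ∧ (s2 ≤ s1 ∨ s2 ≤ s3)) ∨ ((s1 ≤ s2 ∨ s3 ≤ s2) ∧ s2 ≤ 0),
      P3 d a b c o Y2 s2) ∧
    (∀ _ : (0 ≤ s3 ∧ (s3 ≤ s1 ∨ s3 ≤ s2)) ∨ ((s1 ≤ s3 ∨ s2 ≤ s3) ∧ s3 ≤ 0),
      P3 d a b c o Y3 s3) := by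
  refine ⟨fun H => ?_, fun H => ?_, fun H => ?_⟩
  · have hm : Y1 ∈ Ax d c := by
      rcases H with ⟨h0, h1 | h1⟩ | ⟨h1 | h1, h0⟩
      · exact share h hb ob oc p1 p2 (Or.inl ⟨h0, h1⟩)
      · exact share h ha oa oc p1.symm p3 (Or.inl ⟨h0, h1⟩)
      · exact share h hb ob oc p1 p2 (Or.inr ⟨h1, h0⟩)
      · exact share h ha oa oc p1.symm p3 (Or.inr ⟨h1, h0⟩)
    exact ⟨p1.ag, p1.ak, hm, p1.cg, p1.ck, by rw [← g3 _ p1.ag hm]; exact p1.cg⟩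
  · have hm : Y2 ∈ Ax d a := by
      rcases H with ⟨h0, h1 | h1⟩ | ⟨h1 | h1, h0⟩
      · exact share h hb ob oa p2.symm p1.symm (Or.inl ⟨h0, h1⟩)
      · exact share h hc oc oa p2 p3.symm (Or.inl ⟨h0, h1⟩)
      · exact share h hb ob oa p2.symm p1.symm (Or.inr ⟨h1, h0⟩)
      · exact share h hc oc oa p2 p3.symm (Or.inr ⟨h1, h0⟩)
    exact ⟨hm, p2.ag, p2.ak, by rw [g1 _ hm p2.ag]; exact p2.cg, p2.cg, p2.ck⟩
  · have hm : Y3 ∈ Ax d b := by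
      rcases H with ⟨h0, h1 | h1⟩ | ⟨h1 | h1, h0⟩
      · exact share h ha oa ob p3.symm p1 (Or.inl ⟨h0, h1⟩)
      · exact share h hc oc ob p3 p2.symm (Or.inl ⟨h0, h1⟩)
      · exact share h ha oa ob p3.symm p1 (Or.inr ⟨h1, h0⟩)
      · exact share h hc oc ob p3 p2.symm (Or.inr ⟨h1, h0⟩)
    exact ⟨p3.ag, hm, p3.ak, p3.cg, by rw [← g1 _ p3.ag hm]; exact p3.cg, p3.ck⟩

/-- the second largest of three numbers -/
theorem upper {Q : K → Prop} {s1 s2 s3 : K} (h1 : (s1 ≤ s2 ∨ s1 ≤ s3) → Q s1)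
    (h2 : (s2 ≤ s1 ∨ s2 ≤ s3) → Q s2) (h3 : (s3 ≤ s1 ∨ s3 ≤ s2) → Q s3) :
    ∃ s, Q s ∧ ((s = s1 ∨ s = s2 ∨ s = s3) ∧
      ((s1 ≤ s ∧ s2 ≤ s) ∨ (s2 ≤ s ∧ s3 ≤ s) ∨ (s1 ≤ s ∧ s3 ≤ s))) := by
  rcases le_total s1 s2 with a | a <;> rcases le_total s2 s3 with b | b <;>
    rcases le_total s1 s3 with c | c
  · exact ⟨s2, h2 (Or.inr b), Or.inr (Or.inl rfl), Or.inl ⟨a, le_refl _⟩⟩
  · exact ⟨s2, h2 (Or.inr b), Or.inr (Or.inl rfl), Or.inl ⟨a, le_refl _⟩⟩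
  · exact ⟨s3, h3 (Or.inr b), Or.inr (Or.inr rfl), Or.inr (Or.inr ⟨c, le_refl _⟩)⟩
  · exact ⟨s1, h1 (Or.inl a), Or.inl rfl, Or.inr (Or.inr ⟨le_refl _, c⟩)⟩
  · exact ⟨s1, h1 (Or.inr c), Or.inl rfl, Or.inl ⟨le_refl _, a⟩⟩
  · exact ⟨s3, h3 (Or.inl c), Or.inr (Or.inr rfl), Or.inr (Or.inl ⟨b, le_refl _⟩)⟩
  · exact ⟨s2, h2 (Or.inl a), Or.inr (Or.inl rfl), Or.inr (Or.inl ⟨le_refl _, b⟩)⟩
  · exact ⟨s2, h2 (Or.inl a), Or.inr (Or.inl rfl), Or.inr (Or.inl ⟨le_refl _, b⟩)⟩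

end TrAux

open TrAux in
theorem pTr : S_Tr := by
  intro K X G _ _ _ _ _ _ S d h a b c x₁ y₁ x₂ y₂ x₃ y₃ σ ha hb hc n1 n2 n3 fa1 fb1 fb2 fc2 fa3
    fc3 s1 s2 s3
  obtain ⟨o, m1, m2, m3⟩ := h.med x₁ x₂ x₃
  have oa : o ∈ Ax d a := h.ax_mid fa1.1 fa3.1 m2
  have ob : o ∈ Ax d b := h.ax_mid fb1.1 fb2.1 m1
  have oc : o ∈ Ax d c := h.ax_mid fc2.1 fc3.1 m3
  have g1 := agree h ha hb oa ob n1 fa1 fb1
  have g2 := agree h hb hc ob oc n2 fb2 fc2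
  have g3 := agree h ha hc oa oc n3 fa3 fc3
  obtain ⟨A1, B1, H1, M1, hH1, hM1, hs1, pA1, pB1⟩ := pair h ha hb oa ob n1 fa1 fb1 s1
  obtain ⟨A2, B2, H2, M2, hH2, hM2, hs2, pA2, pB2⟩ := pair h hb hc ob oc n2 fb2 fc2 s2
  obtain ⟨A3, B3, H3, M3, hH3, hM3, hs3, pA3, pB3⟩ := pair h ha hc oa oc n3 fa3 fc3 s3
  obtain ⟨u1, u2, u3⟩ := three h ha hb hc oa ob oc g1 g2 g3 pB1 pB2 pB3
  obtain ⟨v1, v2, v3⟩ := three h ha hb hc oa ob oc g1 g2 g3 pA1 pA2 pA3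
  obtain ⟨M, ⟨Y, pY⟩, -, hM⟩ := upper (Q := fun s => ∃ Y, P3 d a b c o Y s)
    (s1 := M1) (s2 := M2) (s3 := M3)
    (fun H => ⟨_, u1 (Or.inl ⟨hM1, H⟩)⟩) (fun H => ⟨_, u2 (Or.inl ⟨hM2, H⟩)⟩)
    (fun H => ⟨_, u3 (Or.inl ⟨hM3, H⟩)⟩)
  obtain ⟨H, ⟨Z, pZ⟩, -, hH⟩ := upper (Q := fun s => ∃ Y, P3 d a b c o Y (-s))
    (s1 := H1) (s2 := H2) (s3 := H3)
    (fun H => ⟨_, v1 (Or.inr ⟨H.imp neg_le_neg neg_le_neg, by linarith⟩)⟩)
    (fun H => ⟨_, v2 (Or.inr ⟨H.imp neg_le_neg neg_le_neg, by linarith⟩)⟩)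
    (fun H => ⟨_, v3 (Or.inr ⟨H.imp neg_le_neg neg_le_neg, by linarith⟩)⟩)
  have hMn : 0 ≤ M := by
    rcases hM with ⟨q1, q2⟩ | ⟨q1, q2⟩ | ⟨q1, q2⟩ <;> linarith
  have hHn : 0 ≤ H := by
    rcases hH with ⟨q1, q2⟩ | ⟨q1, q2⟩ | ⟨q1, q2⟩ <;> linarith
  have hsum : σ ≤ M + H := by
    rcases hM with ⟨q1, q2⟩ | ⟨q1, q2⟩ | ⟨q1, q2⟩ <;>
      rcases hH with ⟨r1, r2⟩ | ⟨r1, r2⟩ | ⟨r1, r2⟩ <;> linarith
  have fa : Fw d a Z Y := (h.co_le ha oa pZ.aa pY.aa).2 (by rw [pZ.ca, pY.ca]; linarith)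
  refine ⟨Z, Y, fa, (h.co_le hb ob pZ.ab pY.ab).2 (by rw [pZ.cb, pY.cb]; linarith),
    (h.co_le hc oc pZ.ac pY.ac).2 (by rw [pZ.cc, pY.cc]; linarith), ?_⟩
  have e := h.co_fw ha oa fa
  rw [pZ.ca, pY.ca] at e
  linarith

end Pool.Agent.LF.Z
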