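import Pool.Agent.Lib.LF.Z.Fin
import Pool.Agent.Lib.LF.Z.Cp
import Pool.Agent.Lib.LF.Z.Pj
import Pool.Agent.Lib.LF.Z.Mx
import Pool.Agent.Lib.LF.Z.Ov
import Pool.Agent.Lib.LF.Z.Sg
import Pool.Agent.Lib.LF.Z.Pr
import Pool.Agent.Lib.LF.Z.Tr
import Pool.Agent.Lib.LF.Z.Fn
import Pool.Agent.Lib.LF.Z.K1
import Pool.Agent.Lib.LF.Z.K2
import Pool.Agent.Lib.LF.Z.Fz
import Pool.Agent.Lib.LF.Z.Ph
import Pool.Agent.Lib.LF.Z.Fa
import Pool.Agent.Lib.LF.Z.Fc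
import Pool.Agent.Lib.LF.Z.Ds
import Pool.Agent.Lib.LF.Z.Py
import Pool.Agent.Lib.LF.Z.Md

/-!
# C43 (MP_2c257b_al), block Z: no free `Z^k`-tree (assembly, helper56)
-/

set_option autoImplicit false

namespace Pool.Agent.LF

open Z in
/-- **Block Z.** A group with three Arnoux-Rauzy copies and the 24 relations acts freely on no
`Z^k`-tree. -/
theorem sZ : S_Z :=
  pFin (pCp (pMx pPj) (pOv pPj) pSg pPr pTr pFn) (pFz (pK2 pK1)) pPh pFc (pDs pFa pFc) pPy pMd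

end Pool.Agent.LF
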