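import Pool.Agent.Lib.LF.Defs

/-!
# C43, block Z (helper56): trees with distances in an ordered field, isometric actions

`TT S d`: `d` is a 0-hyperbolic metric with values in the subgroup `S` of the ordered field `K`, with
points on the segments at all distances in `S` and with Gromov products in `S`.
`Bt d x p y`: `p` is between `x` and `y`.  `Ac S d G`: free isometric action without inversions.
`TL d g`: the translation length, `Ax d g`: the axis, `Fw d g p q`: `p`, `q` are on the axis and `q`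
is in front of `p`.
-/

set_option autoImplicit false
set_option linter.unusedSectionVars false
set_option linter.unusedVariables false

namespace Pool.Agent.LF.Z

section basic

variable {K : Type} [Field K] [LinearOrder K] [IsStrictOrderedRing K] {X : Type}
  {S : AddSubgroup K} {d : X → X → K}

/-- a tree with distances in the subgroup `S` of the ordered field `K` -/
structure TT (S : AddSubgroup K) (d : X → X → K) : Prop where
  mem : ∀ x y, d x y ∈ S
  eq : ∀ x y, d x y = 0 → x = y
  self : ∀ x, d x x = 0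
  symm : ∀ x y, d x y = d y x
  hyp : ∀ x y z w, d x y + d z w ≤ max (d x z + d y w) (d x w + d y z)
  pt : ∀ x y, ∀ s ∈ S, 0 ≤ s → s ≤ d x y → ∃ p, d x p = s ∧ d p y = d x y - s
  gpS : ∀ x y z, (d x y + d x z - d y z) / 2 ∈ S

/-- `p` is between `x` and `y` -/
def Bt (d : X → X → K) (x p y : X) : Prop := d x p + d p y = d x y

theorem TT.h4 (h : TT S d) (x y z w : X) :
    d x y + d z w ≤ d x z + d y w ∨ d x y + d z w ≤ d x w + d y z :=
  le_max_iff.1 (h.hyp x y z w)

theorem TT.tri (h : TT S d) (x y z : X) : d x z ≤ d x y + d y z := by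
  have h1 := h.hyp x z y y
  rw [h.self, add_zero, h.symm z y, max_self] at h1
  exact h1

theorem TT.nn (h : TT S d) (x y : X) : 0 ≤ d x y := by
  have h1 := h.tri x y x
  rw [h.self, h.symm y x] at h1
  linarith

theorem TT.pos (h : TT S d) {x y : X} (hxy : x ≠ y) : 0 < d x y :=
  lt_of_le_of_ne (h.nn x y) fun e => hxy (h.eq x y e.symm)

theorem TT.bt_symm (h : TT S d) {x p y : X} (hp : Bt d x p y) : Bt d y p x := by
  unfold Bt at *
  rw [h.symm y p, h.symm p x, h.symm y x]
  linarith

theorem TT.bt_self (h : TT S d) (x y : X) : Bt d x x y := by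
  unfold Bt
  rw [h.self]
  ring

theorem TT.bt_end (h : TT S d) (x y : X) : Bt d x y y := by
  unfold Bt
  rw [h.self]
  ring

/-- uniqueness of points on segments -/
theorem TT.uniq (h : TT S d) {x y p q : X} (hp : Bt d x p y) (hq : Bt d x q y)
    (e : d x p = d x q) : p = q := by
  unfold Bt at hp hq
  apply h.eq
  have h1 := h.nn p q
  have h2 := h.symm p x
  have h3 := h.symm q x
  rcases h.h4 p q x y with h4 | h4 <;> linarith

/-- segments with a common initial part -/
theorem TT.br (h : TT S d) {u x y p : X} (hp : Bt d u p x)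
    (hle : 2 * d u p ≤ d u x + d u y - d x y) : Bt d u p y := by
  unfold Bt at *
  have h1 := h.tri u p y
  have h2 := h.symm p u
  have h3 := h.symm y x
  have h5 := h.symm y u
  rcases h.h4 p y u x with h4 | h4 <;> linarith

/-- two points on a segment -/
theorem TT.two (h : TT S d) {x y p q : X} (hp : Bt d x p y) (hq : Bt d x q y)
    (hle : d x p ≤ d x q) : Bt d x p q ∧ Bt d p q y := by
  have h1 : Bt d x p q := by
    apply h.br hp
    unfold Bt at hq
    have := h.symm y q
    linarith
  refine ⟨h1, ?_⟩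
  unfold Bt at *
  linarith

theorem TT.in_r (h : TT S d) {x y p q : X} (hp : Bt d x p y) (hq : Bt d p q y) :
    Bt d x q y ∧ Bt d x p q := by
  unfold Bt at *
  have h1 := h.tri x p q
  have h2 := h.tri x q y
  constructor <;> linarith

theorem TT.in_l (h : TT S d) {x y p q : X} (hp : Bt d x p y) (hq : Bt d x q p) :
    Bt d x q y ∧ Bt d q p y := by
  unfold Bt at *
  have h1 := h.tri q p y
  have h2 := h.tri x q y
  constructor <;> linarith

/-- gluing of segments -/
theorem TT.lg (h : TT S d) {x p q y : X} (h1 : Bt d x p q) (h2 : Bt d p q y) (hne : p ≠ q) :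
    Bt d x q y ∧ Bt d x p y := by
  have h3 := h.pos hne
  unfold Bt at *
  have h5 := h.symm q p
  have h6 := h.tri x q y
  have h7 := h.tri x p y
  have h8 := h.tri p q y
  rcases h.h4 x q p y with h4 | h4 <;> constructor <;> linarith

theorem TT.ex (h : TT S d) (x y : X) {s : K} (hs : s ∈ S) (h0 : 0 ≤ s) (h1 : s ≤ d x y) :
    ∃ p, Bt d x p y ∧ d x p = s := by
  obtain ⟨p, h2, h3⟩ := h.pt x y s hs h0 h1
  refine ⟨p, ?_, h2⟩
  unfold Bt
  rw [h2, h3]
  ring

/-- the median of three points -/
theorem TT.med (h : TT S d) (x y z : X) : ∃ m, Bt d x m y ∧ Bt d x m z ∧ Bt d y m z := by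
  have h1 := h.tri y x z
  have h2 := h.tri x y z
  have h3 := h.tri x z y
  have h4 := h.symm y x
  have h5 := h.symm z y
  obtain ⟨m, hm, hm'⟩ := h.ex x y (h.gpS x y z) (by linarith) (by linarith)
  have h6 : Bt d x m z := h.br hm (by linarith)
  refine ⟨m, hm, h6, ?_⟩
  unfold Bt at *
  have h7 := h.symm m y
  linarith

end basic

section action

variable {K : Type} [Field K] [LinearOrder K] [IsStrictOrderedRing K] {X : Type}
  {S : AddSubgroup K} {d : X → X → K} {G : Type} [Group G] [MulAction G X]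

variable (S d G) in
/-- free isometric action without inversions -/
structure Ac : Prop extends TT S d where
  iso : ∀ (g : G) (x y : X), d (g • x) (g • y) = d x y
  free : ∀ (g : G) (x : X), g • g • x = x → g = 1

/-- translation length -/
noncomputable def TL [Nonempty X] (d : X → X → K) (g : G) : K :=
  d (Classical.arbitrary X) (g • g • Classical.arbitrary X) -
    d (Classical.arbitrary X) (g • Classical.arbitrary X)

/-- axis -/
def Ax [Nonempty X] (d : X → X → K) (g : G) : Set X := {p | d p (g • p) = TL d g}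

/-- `q` is in front of `p` on the axis of `g` -/
def Fw [Nonempty X] (d : X → X → K) (g : G) (p q : X) : Prop :=
  p ∈ Ax d g ∧ q ∈ Ax d g ∧ d p (g • q) = d p q + TL d g

theorem Ac.bt (h : Ac S d G) (g : G) {x p y : X} (hp : Bt d x p y) :
    Bt d (g • x) (g • p) (g • y) := by
  unfold Bt at *
  rw [h.iso, h.iso, h.iso]
  exact hp

/-- elements without fixed points of the square move points to the right -/
theorem Ac.lt (h : Ac S d G) {g : G} (hg : g ≠ 1) (x : X) : d x (g • x) < d x (g • g • x) := by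
  by_contra hcon
  push Not at hcon
  apply hg
  have ha : d (g • x) (g • g • x) = d x (g • x) := h.iso g x (g • x)
  have hs : d (g • x) x = d x (g • x) := h.symm _ _
  have hb := h.nn x (g • g • x)
  have hc := h.gpS (g • x) x (g • g • x)
  rw [ha, hs] at hc
  set a := d x (g • x) with hadef
  set b := d x (g • g • x) with hbdef
  obtain ⟨p, hp1, hp2⟩ := h.ex x (g • x) hc (by linarith) (by linarith)
  have hc' : a - (a + a - b) / 2 ∈ S := S.sub_mem (h.mem _ _) hc
  obtain ⟨q, hq1, hq2⟩ := h.ex x (g • x) hc' (by linarith) (by linarith)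
  have hp3 : d (g • x) p = a - (a + a - b) / 2 := by
    rw [h.symm]
    have : d x p + d p (g • x) = a := hp1
    linarith
  have hq3 : d (g • x) q = (a + a - b) / 2 := by
    rw [h.symm]
    have : d x q + d q (g • x) = a := hq1
    linarith
  have hp4 : Bt d (g • x) p (g • g • x) := h.br (h.bt_symm hp1) (by rw [hp3, ha, hs]; linarith)
  have hq4 : Bt d (g • x) q (g • g • x) := h.br (h.bt_symm hq1) (by rw [hq3, ha, hs]; linarith)
  have e1 : g • p = q := h.uniq (h.bt g hp1) hq4 (by rw [h.iso, hp2, hq3])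
  have e2 : g • q = p := h.uniq (h.bt g hq1) hp4 (by rw [h.iso, hq2, hp3])
  exact h.free g p (by rw [e1, e2])

theorem Ac.le2 (h : Ac S d G) (g : G) (x : X) : d x (g • g • x) ≤ 2 * d x (g • x) := by
  have h1 := h.tri x (g • x) (g • g • x)
  rw [h.iso] at h1
  linarith

/-- a point of the axis on `[x, g x]` -/
theorem Ac.exax (h : Ac S d G) (g : G) (x : X) : ∃ p, Bt d x p (g • x) ∧
    Bt d x (g • p) (g • x) ∧ Bt d x p (g • p) ∧
    2 * d x p + (d x (g • g • x) - d x (g • x)) = d x (g • x) ∧
    d p (g • p) = d x (g • g • x) - d x (g • x) ∧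
    d p (g • g • p) = 2 * (d x (g • g • x) - d x (g • x)) := by
  by_cases hg : g = 1
  · subst hg
    refine ⟨x, ?_⟩
    simp only [one_smul, h.self]
    refine ⟨h.bt_self _ _, h.bt_self _ _, h.bt_self _ _, by ring, by ring, by ring⟩
  have hlt := h.lt hg x
  have hle := h.le2 g x
  have ha : d (g • x) (g • g • x) = d x (g • x) := h.iso g x (g • x)
  have hs : d (g • x) x = d x (g • x) := h.symm _ _
  have hs2 : d (g • g • x) x = d x (g • g • x) := h.symm _ _
  have hc := h.gpS (g • x) x (g • g • x)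
  rw [ha, hs] at hc
  set a := d x (g • x) with hadef
  set b := d x (g • g • x) with hbdef
  obtain ⟨p, hp1, hp2⟩ := h.ex x (g • x) hc (by linarith) (by linarith)
  have h1 : Bt d (g • x) (g • p) x := h.br (h.bt g hp1) (by
    rw [h.iso, hp2, ha, hs, hs2]; linarith)
  have h2 : Bt d x (g • p) (g • x) := h.bt_symm h1
  have h3 : d x (g • p) = a - (a + a - b) / 2 := by
    have e1 : d x (g • p) + d (g • p) (g • x) = a := h2
    rw [h.iso, h.symm p x, hp2] at e1
    linarith
  have h4 : Bt d x p (g • p) := (h.two hp1 h2 (by rw [hp2, h3]; linarith)).1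
  have h5 : d p (g • p) = b - a := by
    have e1 : d x p + d p (g • p) = d x (g • p) := h4
    rw [hp2, h3] at e1
    linarith
  refine ⟨p, hp1, h2, h4, by rw [hp2]; ring, h5, ?_⟩
  have h6 := h.le2 g p
  have h7 := h.tri x p (g • g • p)
  have h8 := h.tri x (g • g • p) (g • g • x)
  rw [h.iso, h.iso, h.symm p x] at h8
  linarith

theorem Ac.tl_aux (h : Ac S d G) {g : G} (hg : g ≠ 1) {p p' : X} {l l' : K}
    (h1 : d p (g • p) = l) (h2 : d p (g • g • p) = 2 * l) (h3 : d p' (g • p') = l') : l ≤ l' := by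
  have h5 := h.iso g p p'
  have h6 : d (g • p) (g • g • p) = l := (h.iso g p (g • p)).trans h1
  have h7 : d (g • g • p) p = 2 * l := (h.symm _ _).trans h2
  have h8 : d (g • p') (g • g • p) = d p' (g • p) := h.iso g p' (g • p)
  have h9 : d (g • p') p = d p (g • p') := h.symm _ _
  have h10 : d (g • p) p = l := (h.symm _ _).trans h1
  have h11 := h.tri p p' (g • p')
  have h12 := h.tri p' (g • p') (g • p)
  have h13 := h.symm (g • p') (g • p)
  rcases h.h4 (g • p) (g • p') (g • g • p) p with h4 | h4 <;> linarith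

/-- the translation length does not depend on the point -/
theorem Ac.tl [Nonempty X] (h : Ac S d G) (g : G) (x : X) :
    d x (g • g • x) - d x (g • x) = TL d g := by
  by_cases hg : g = 1
  · subst hg
    unfold TL
    simp only [one_smul, h.self]
  obtain ⟨p, -, -, -, -, h1, h2⟩ := h.exax g x
  obtain ⟨q, -, -, -, -, h3, h4⟩ := h.exax g (Classical.arbitrary X)
  exact le_antisymm (h.tl_aux hg h1 h2 h3) (h.tl_aux hg h3 h4 h1)

variable [Nonempty X]

theorem Ac.tl_pos (h : Ac S d G) {g : G} (hg : g ≠ 1) : 0 < TL d g := by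
  rw [← h.tl g (Classical.arbitrary X)]
  linarith [h.lt hg (Classical.arbitrary X)]

theorem Ac.tl_one (h : Ac S d G) : TL d (1 : G) = 0 := by
  rw [← h.tl 1 (Classical.arbitrary X)]
  simp

theorem Ac.tl_nn (h : Ac S d G) (g : G) : 0 ≤ TL d g := by
  by_cases hg : g = 1
  · rw [hg, h.tl_one]
  · exact (h.tl_pos hg).le

theorem Ac.tl_mem (h : Ac S d G) (g : G) : TL d g ∈ S :=
  S.sub_mem (h.mem _ _) (h.mem _ _)

theorem Ac.tl_conj (h : Ac S d G) (g k : G) : TL d (k * g * k⁻¹) = TL d g := by
  rw [← h.tl g (k⁻¹ • Classical.arbitrary X), ← h.tl (k * g * k⁻¹) (Classical.arbitrary X)]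
  simp only [mul_smul, inv_smul_smul]
  have e : ∀ y : X, d (Classical.arbitrary X) (k • y) = d (k⁻¹ • Classical.arbitrary X) y := by
    intro y
    rw [← h.iso k (k⁻¹ • Classical.arbitrary X) y, smul_inv_smul]
  rw [e, e]

theorem Ac.tl_inv (h : Ac S d G) (g : G) : TL d g⁻¹ = TL d g := by
  rw [← h.tl g (Classical.arbitrary X), ← h.tl g⁻¹ (Classical.arbitrary X)]
  have e1 : d (Classical.arbitrary X) (g⁻¹ • g⁻¹ • Classical.arbitrary X) =
      d (Classical.arbitrary X) (g • g • Classical.arbitrary X) := by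
    rw [← h.iso g, ← h.iso g, smul_inv_smul, smul_inv_smul, h.symm]
  have e2 : d (Classical.arbitrary X) (g⁻¹ • Classical.arbitrary X) =
      d (Classical.arbitrary X) (g • Classical.arbitrary X) := by
    rw [← h.iso g, smul_inv_smul, h.symm]
  rw [e1, e2]

theorem Ac.tl_le (h : Ac S d G) (g : G) (x : X) : TL d g ≤ d x (g • x) := by
  rw [← h.tl g x]
  linarith [h.le2 g x]

theorem Ac.ax2 (h : Ac S d G) {g : G} {p : X} (hp : p ∈ Ax d g) :
    d p (g • g • p) = 2 * TL d g := by
  have h1 := h.tl g p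
  have h2 : d p (g • p) = TL d g := hp
  linarith

theorem Ac.ax_smul (h : Ac S d G) {g : G} {p : X} (hp : p ∈ Ax d g) : g • p ∈ Ax d g := by
  show d (g • p) (g • g • p) = TL d g
  rw [h.iso]
  exact hp

/-- the conjugate of an axis -/
theorem Ac.ax_conj (h : Ac S d G) {g : G} (k : G) {p : X} (hp : p ∈ Ax d g) :
    k • p ∈ Ax d (k * g * k⁻¹) := by
  show d (k • p) ((k * g * k⁻¹) • k • p) = TL d (k * g * k⁻¹)
  rw [h.tl_conj, mul_smul, mul_smul, inv_smul_smul, h.iso]
  exact hp

theorem Ac.fw_conj (h : Ac S d G) {g : G} (k : G) {p q : X} (hp : Fw d g p q) :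
    Fw d (k * g * k⁻¹) (k • p) (k • q) := by
  refine ⟨h.ax_conj k hp.1, h.ax_conj k hp.2.1, ?_⟩
  rw [h.tl_conj, mul_smul, mul_smul, inv_smul_smul, h.iso, h.iso]
  exact hp.2.2

theorem Ac.fw_refl (h : Ac S d G) {g : G} {p : X} (hp : p ∈ Ax d g) : Fw d g p p := by
  refine ⟨hp, hp, ?_⟩
  rw [h.self]
  have : d p (g • p) = TL d g := hp
  rw [this]
  ring

theorem Ac.fw_smul (h : Ac S d G) {g : G} {p : X} (hp : p ∈ Ax d g) : Fw d g p (g • p) := by
  refine ⟨hp, h.ax_smul hp, ?_⟩
  rw [h.ax2 hp]
  have : d p (g • p) = TL d g := hp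
  rw [this]
  ring

/-- the axis is a line -/
theorem Ac.fw_total (h : Ac S d G) {g : G} {p q : X} (hp : p ∈ Ax d g) (hq : q ∈ Ax d g) :
    Fw d g p q ∨ Fw d g q p := by
  have h1 : d p (g • p) = TL d g := hp
  have h2 : d q (g • q) = TL d g := hq
  have h3 := h.ax2 hp
  have h5 := h.iso g p q
  have h6 : d (g • p) (g • g • p) = TL d g := (h.iso g p (g • p)).trans h1
  have h7 : d (g • g • p) p = 2 * TL d g := (h.symm _ _).trans h3
  have h8 : d (g • q) (g • g • p) = d q (g • p) := h.iso g q (g • p)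
  have h9 : d (g • q) p = d p (g • q) := h.symm _ _
  have h10 : d (g • p) p = TL d g := (h.symm _ _).trans h1
  have h11 := h.tri p q (g • q)
  have h12 := h.tri q (g • q) (g • p)
  have h13 := h.symm (g • q) (g • p)
  have h14 := h.symm q p
  rcases h.h4 (g • p) (g • q) (g • g • p) p with h4 | h4
  · left
    exact ⟨hp, hq, by linarith⟩
  · right
    exact ⟨hq, hp, by linarith⟩

theorem Ac.fw_bt (h : Ac S d G) {g : G} {p q : X} (hp : Fw d g p q) : Bt d p q (g • q) := by
  unfold Bt
  have : d q (g • q) = TL d g := hp.2.1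
  rw [this, hp.2.2]

theorem Ac.fw_bt' (h : Ac S d G) {g : G} {p q : X} (hp : Fw d g p q) :
    Bt d p (g • p) (g • q) := by
  unfold Bt
  have : d p (g • p) = TL d g := hp.1
  rw [this, h.iso, hp.2.2]
  ring

/-- the axis is convex -/
theorem Ac.fw_mid (h : Ac S d G) {g : G} {p z q : X} (hp : Fw d g p q) (hz : Bt d p z q) :
    Fw d g p z ∧ Fw d g z q := by
  have h1 := h.fw_bt hp
  have h2 := h.fw_bt' hp
  have h3 := h.in_l h1 hz
  have h4 := h.in_r h2 (h.bt g hz)
  have hl := h.tl_nn g
  have e1 : d p (g • p) = TL d g := hp.1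
  have e2 : d q (g • q) = TL d g := hp.2.1
  have e3 : d p (g • z) = TL d g + d p z := by
    have : d p (g • p) + d (g • p) (g • z) = d p (g • z) := h4.2
    rw [← this, e1, h.iso]
  have h5 := (h.two h3.1 h4.1 (by rw [e3]; linarith)).1
  have e4 : d z (g • z) = TL d g := by
    have : d p z + d z (g • z) = d p (g • z) := h5
    linarith
  refine ⟨⟨hp.1, e4, by rw [e3]; ring⟩, ⟨e4, hp.2.1, ?_⟩⟩
  have : d z q + d q (g • q) = d z (g • q) := h3.2
  rw [← this, e2]

theorem Ac.ax_mid (h : Ac S d G) {g : G} {p z q : X} (hp : p ∈ Ax d g) (hq : q ∈ Ax d g)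
    (hz : Bt d p z q) : z ∈ Ax d g := by
  rcases h.fw_total hp hq with h1 | h1
  · exact (h.fw_mid h1 hz).1.2.1
  · exact (h.fw_mid h1 (h.bt_symm hz)).1.2.1

theorem Ac.fw_anti (h : Ac S d G) {g : G} (hg : g ≠ 1) {p q : X} (h1 : Fw d g p q)
    (h2 : Fw d g q p) : p = q := by
  apply h.eq
  have hl := h.tl_pos hg
  have h3 := h1.2.2
  have h5 := h2.2.2
  have e1 : d p (g • p) = TL d g := h1.1
  have e2 : d q (g • q) = TL d g := h1.2.1
  have e3 := h.iso g p q
  have e4 := h.symm p q
  have e5 := h.nn p q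
  have e6 := h.symm (g • q) (g • p)
  have e7 := h.symm (g • q) q
  rcases h.h4 p (g • q) q (g • p) with h4 | h4 <;> linarith

theorem Ac.fw_trans (h : Ac S d G) {g : G} (hg : g ≠ 1) {p q r : X} (h1 : Fw d g p q)
    (h2 : Fw d g q r) : Fw d g p r ∧ Bt d p q r := by
  have hb : Bt d p q r := by
    have e1 : d q (g • q) = TL d g := h1.2.1
    have e2 := h1.2.2
    have e3 := h.symm r q
    have e4 := h.tri p q r
    have e5 := h.symm r (g • q)
    rcases h.h4 p (g • q) r q with h4 | h4
    · unfold Bt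
      have e6 := h.symm (g • q) q
      linarith
    · have e7 : Fw d g r q := by
        refine ⟨h2.2.1, h1.2.1, ?_⟩
        have e8 := h.tri r q (g • q)
        have e9 := h.symm (g • q) r
        linarith
      have := h.fw_anti hg h2 e7
      subst this
      exact h.bt_end _ _
  refine ⟨⟨h1.1, h2.2.1, ?_⟩, hb⟩
  by_cases hqr : q = r
  · subst hqr
    exact h1.2.2
  · have h3 := (h.lg hb (h.fw_bt h2) hqr).1
    have e1 : d r (g • r) = TL d g := h2.2.1
    have : d p r + d r (g • r) = d p (g • r) := h3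
    rw [← this, e1]

/-- the coordinate on the axis of `g`, with the origin `o` -/
noncomputable def co (d : X → X → K) (g : G) (o z : X) : K :=
  open Classical in if Fw d g o z then d o z else -d o z

theorem Ac.co_self (h : Ac S d G) (g : G) (o : X) : co d g o o = 0 := by
  unfold co
  rw [h.self, neg_zero, ite_self]

theorem Ac.co_fw (h : Ac S d G) {g : G} (hg : g ≠ 1) {o z w : X} (ho : o ∈ Ax d g)
    (hzw : Fw d g z w) : co d g o w - co d g o z = d z w := by
  have hz := hzw.1
  have hw := hzw.2.1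
  unfold co
  have e1 := h.symm z o
  have e2 := h.symm w o
  by_cases h1 : Fw d g o z
  · obtain ⟨h2, h3⟩ := h.fw_trans hg h1 hzw
    rw [if_pos h1, if_pos h2]
    unfold Bt at h3
    linarith
  · have h2 : Fw d g z o := (h.fw_total ho hz).resolve_left h1
    rw [if_neg h1]
    by_cases h3 : Fw d g o w
    · rw [if_pos h3]
      have h5 := (h.fw_trans hg h2 h3).2
      unfold Bt at h5
      linarith
    · rw [if_neg h3]
      have h4 : Fw d g w o := (h.fw_total ho hw).resolve_left h3
      have h5 := (h.fw_trans hg hzw h4).2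
      unfold Bt at h5
      linarith

theorem Ac.co_dist (h : Ac S d G) {g : G} (hg : g ≠ 1) {o z w : X} (ho : o ∈ Ax d g)
    (hz : z ∈ Ax d g) (hw : w ∈ Ax d g) : d z w = |co d g o z - co d g o w| := by
  rcases h.fw_total hz hw with h1 | h1
  · rw [abs_sub_comm, h.co_fw hg ho h1, abs_of_nonneg (h.nn _ _)]
  · rw [h.co_fw hg ho h1, abs_of_nonneg (h.nn _ _), h.symm]

theorem Ac.co_le (h : Ac S d G) {g : G} (hg : g ≠ 1) {o z w : X} (ho : o ∈ Ax d g)
    (hz : z ∈ Ax d g) (hw : w ∈ Ax d g) : Fw d g z w ↔ co d g o z ≤ co d g o w := by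
  constructor
  · intro h1
    have := h.co_fw hg ho h1
    linarith [h.nn z w]
  · intro h1
    rcases h.fw_total hz hw with h2 | h2
    · exact h2
    · have h3 := h.co_fw hg ho h2
      have h4 : d w z = 0 := le_antisymm (by linarith) (h.nn _ _)
      have := h.eq _ _ h4
      subst this
      exact h.fw_refl hz

theorem Ac.co_smul (h : Ac S d G) {g : G} (hg : g ≠ 1) {o z : X} (ho : o ∈ Ax d g)
    (hz : z ∈ Ax d g) : co d g o (g • z) = co d g o z + TL d g := by
  have h1 := h.co_fw hg ho (h.fw_smul hz)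
  have h2 : d z (g • z) = TL d g := hz
  linarith

theorem Ac.co_inj (h : Ac S d G) {g : G} (hg : g ≠ 1) {o z w : X} (ho : o ∈ Ax d g)
    (hz : z ∈ Ax d g) (hw : w ∈ Ax d g) (e : co d g o z = co d g o w) : z = w := by
  apply h.eq
  rw [h.co_dist hg ho hz hw, e, sub_self, abs_zero]

theorem Ac.co_mem (h : Ac S d G) (g : G) (o z : X) : co d g o z ∈ S := by
  unfold co
  split_ifs
  · exact h.mem _ _
  · exact S.neg_mem (h.mem _ _)

/-- the point with coordinate `s` between two points of the axis -/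
theorem Ac.co_ex (h : Ac S d G) {g : G} (hg : g ≠ 1) {o z w : X} (ho : o ∈ Ax d g)
    (hz : z ∈ Ax d g) (hw : w ∈ Ax d g) {s : K} (hs : s ∈ S) (h1 : co d g o z ≤ s)
    (h2 : s ≤ co d g o w) : ∃ p ∈ Ax d g, co d g o p = s ∧ Bt d z p w := by
  have h3 : Fw d g z w := (h.co_le hg ho hz hw).2 (h1.trans h2)
  have h4 := h.co_fw hg ho h3
  obtain ⟨p, hp1, hp2⟩ := h.ex z w (s := s - co d g o z)
    (S.sub_mem hs (h.co_mem _ _ _)) (by linarith) (by linarith)
  have h5 := (h.fw_mid h3 hp1).1
  have h6 := h.co_fw hg ho h5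
  exact ⟨p, h5.2.1, by linarith, hp1⟩

end action

end Pool.Agent.LF.Z
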