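import Pool.Agent.Lib.LF.Z.Spec

/-!
# C43, block Z: non commuting elements of the free group (`S_Fc`) (helper66)
-/

set_option autoImplicit false

namespace Pool.Agent.LF.Z

theorem Fc_aux : ∀ i : Fin 3,
    (((FreeGroup.of i)⁻¹ * FreeGroup.of (i + 1)) * ((FreeGroup.of i)⁻¹ * FreeGroup.of (i + 2)) :
      FreeGroup (Fin 3)) ≠ ((FreeGroup.of i)⁻¹ * FreeGroup.of (i + 2)) *
      ((FreeGroup.of i)⁻¹ * FreeGroup.of (i + 1)) := by
  decide

theorem Fc_aux' : ∀ i j : Fin 3, i ≠ j →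
    (FreeGroup.of i * FreeGroup.of j : FreeGroup (Fin 3)) ≠ FreeGroup.of j * FreeGroup.of i := by
  decide

theorem pFc : S_Fc := by
  intro Γ _ g hinj
  have e : ∀ i, g i = FreeGroup.lift g (FreeGroup.of i) := fun i =>
    (FreeGroup.lift_apply_of).symm
  constructor
  · intro i j hij h
    rw [e i, e j, ← map_mul, ← map_mul] at h
    exact Fc_aux' i j hij (hinj h)
  · intro i h
    rw [e i, e (i + 1), e (i + 2), ← map_inv, ← map_mul, ← map_mul, ← map_mul, ← map_mul] at h
    exact Fc_aux i (hinj h)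

end Pool.Agent.LF.Z
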