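import Pool.Agent.Lib.LF.Z.Spec

/-!
# C43, block Z: assembly (helper56)
-/

set_option autoImplicit false

namespace Pool.Agent.LF.Z

namespace FinAux

theorem nn_ap {k : ℕ} (y : Fin 3 → Lex (Fin k → ℤ)) (q : Fin k) (i : Fin 3) :
    (ofLex (nn y i)) q = nn (fun i => (ofLex (y i)) q) i := by
  fin_cases i <;> rfl

end FinAux

open FinAux in
/-- the parities -/
theorem parities (hDs : S_Ds) (hPy : S_Py) (hMd : S_Md) (Γ X : Type) [Group Γ] [MulAction Γ X]
    (hfree : ∀ (g : Γ) (x : X), g • x = x → g = 1) (k : ℕ)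
    (y : Fin 3 → Fin 3 → Lex (Fin k → ℤ)) (ar : ∀ j, AR Γ X (y j)) (n0 : y 1 = nn (y 0))
    (n1 : y 2 = nn (y 1)) : False := by
  classical
  have hpos : ∀ y : Fin 3 → Lex (Fin k → ℤ), AR Γ X y → ∀ i, 0 < y i := by
    rintro y ⟨g, l, Δ, f, -, -, h, -⟩
    exact h
  have key := hPy k (AR Γ X) hpos (fun y hy => hDs Γ X (Lex (Fin k → ℤ)) hfree y hy)
  -- the leading coordinate
  have hex : ∃ p : Fin k, ∃ i, (ofLex (y 0 i)) p ≠ 0 := by
    by_contra hcon
    push Not at hcon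
    have h1 := hpos _ (ar 0) 0
    have h2 : y 0 0 = 0 := by
      apply ofLex.injective
      funext p
      exact hcon p 0
    rw [h2] at h1
    exact lt_irrefl _ h1
  obtain ⟨p, hp, hmin⟩ : ∃ p : Fin k, (∃ i, (ofLex (y 0 i)) p ≠ 0) ∧
      ∀ q < p, ∀ i, (ofLex (y 0 i)) q = 0 := by
    have hwf := WellFounded.has_min (wellFounded_lt (α := Fin k))
      {p | ∃ i, (ofLex (y 0 i)) p ≠ 0} hex
    obtain ⟨p, hp, hm⟩ := hwf
    refine ⟨p, hp, fun q hq i => ?_⟩
    by_contra h1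
    exact hm q ⟨i, h1⟩ hq
  have hz0 : ∀ q < p, ∀ i, (ofLex (y 1 i)) q = 0 := by
    intro q hq i
    rw [n0, nn_ap]
    have : (fun i => (ofLex (y 0 i)) q) = 0 := funext fun i => hmin q hq i
    rw [this]
    fin_cases i <;> rfl
  have hz1 : ∀ q < p, ∀ i, (ofLex (y 2 i)) q = 0 := by
    intro q hq i
    rw [n1, nn_ap]
    have : (fun i => (ofLex (y 1 i)) q) = 0 := funext fun i => hz0 q hq i
    rw [this]
    fin_cases i <;> rfl
  have e1 : (fun i => (ofLex (y 1 i)) p) = nn fun i => (ofLex (y 0 i)) p := by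
    funext i
    rw [n0, nn_ap]
  have e2 : (fun i => (ofLex (y 2 i)) p) = nn (nn fun i => (ofLex (y 0 i)) p) := by
    funext i
    rw [n1, nn_ap, e1]
  have hv : (fun i => (ofLex (y 0 i)) p) ≠ 0 := by
    obtain ⟨i, hi⟩ := hp
    exact fun e => hi (congrFun e i)
  obtain ⟨e, h | h | h⟩ := hMd _ hv
  · exact key (y 0) (ar 0) p hmin e h
  · rw [← e1] at h
    exact key (y 1) (ar 1) p hz0 e h
  · rw [← e2] at h
    exact key (y 2) (ar 2) p hz1 e h

theorem pFin (hCp : S_Cp) (hFz : S_Fz) (hPh : S_Ph) (hFc : S_Fc) (hDs : S_Ds) (hPy : S_Py)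
    (hMd : S_Md) : LF.S_Z := by
  intro Γ _ a u hrel hinj k hF
  obtain ⟨X, d, ρ, hne, heq, hsymm, htri, hiso, hfree, hseg⟩ := hF
  obtain ⟨b1, b2, b3⟩ := hseg (SegF d) (fun _ _ _ => Iff.rfl)
  let _ : MulAction Γ X := MulAction.compHom X ρ
  have hsm : ∀ (g : Γ) (x : X), g • x = ρ g x := fun _ _ => rfl
  obtain ⟨K, i1, i2, i3, Φ, hΦ⟩ := hPh k
  have hfr : Fr Φ d := ⟨hΦ, heq, hsymm, htri, b1, b2, b3⟩
  have hTT := hFz (Lex (Fin k → ℤ)) K X Φ d hfr
  have hfree2 : ∀ (g : Γ) (x : X), g • g • x = x → g = 1 := by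
    intro g x hx
    apply hfree g x
    rw [pow_two, map_mul, Equiv.Perm.mul_apply]
    exact hx
  have hfree1 : ∀ (g : Γ) (x : X), g • x = x → g = 1 := fun g x hx =>
    hfree2 g x (by rw [hx, hx])
  have h : Ac Φ.range (fun x y => Φ (d x y)) Γ :=
    { toTT := hTT
      iso := fun g x y => by
        show Φ (d (ρ g x) (ρ g y)) = Φ (d x y)
        rw [hiso]
      free := hfree2 }
  have hO : ∀ j, Out Φ.range (fun x y => Φ (d x y)) (a j) := by
    intro j
    refine hCp K X Γ Φ.range _ h (a j) (hFc Γ (a j) (hinj j)).1 (fun z => ?_) (fun z => ?_)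
    · exact ⟨u (.t j z), hrel (.t j z)⟩
    · exact ⟨u (.s j z), hrel (.s j z)⟩
  have hL : ∀ g : Γ, ∃ l : Lex (Fin k → ℤ), Φ l = TL (fun x y => Φ (d x y)) g := fun g =>
    AddMonoidHom.mem_range.1 (h.tl_mem g)
  choose L hL using hL
  have hinjΦ := hΦ.injective
  have hn : ∀ j i, a j i ≠ 1 := by
    intro j i e
    have h1 : i ≠ i + 1 := by fin_cases i <;> decide
    exact (hFc Γ (a j) (hinj j)).1 i (i + 1) h1 (by rw [e]; simp)
  -- the three triples
  have har : ∀ j, AR Γ X fun i => L (a j (i + 1)) + L (a j (i + 2)) - L (a j i) := by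
    intro j
    obtain ⟨t0, t1, t2, -, -, -, f, Δ, hΔ, hs, hf⟩ := hO j
    obtain ⟨Δ', rfl⟩ := AddMonoidHom.mem_range.1 hΔ
    refine ⟨a j, fun i => L (a j i), Δ', fun s => f (Φ s), hinj j, fun i => ?_, fun i => ?_,
      fun i => rfl, ?_, ?_⟩
    · rw [← hΦ.lt_iff_lt, map_zero, hL]
      exact h.tl_pos (hn j i)
    · rw [← hΦ.lt_iff_lt, map_zero, map_sub, map_add, hL, hL, hL]
      fin_cases i
      · show 0 < TL (fun x y => Φ (d x y)) (a j 1) + TL (fun x y => Φ (d x y)) (a j 2) -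
          TL (fun x y => Φ (d x y)) (a j 0)
        linarith
      · show 0 < TL (fun x y => Φ (d x y)) (a j 2) + TL (fun x y => Φ (d x y)) (a j 0) -
          TL (fun x y => Φ (d x y)) (a j 1)
        linarith
      · show 0 < TL (fun x y => Φ (d x y)) (a j 0) + TL (fun x y => Φ (d x y)) (a j 1) -
          TL (fun x y => Φ (d x y)) (a j 2)
        linarith
    · rw [← hΦ.le_iff_le]
      simp only [map_add, hL]
      linarith
    · intro i s h0 h1
      have h2 : (0 : K) ≤ Φ s := by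
        rw [← map_zero Φ]
        exact hΦ.monotone h0
      have h3 : Φ s + TL (fun x y => Φ (d x y)) (a j i) ≤ Φ Δ' := by
        rw [← hL, ← map_add]
        exact hΦ.monotone h1
      show a j i • f (Φ s) = f (Φ (s + L (a j i)))
      rw [map_add, hL]
      exact hf i (Φ s) (AddMonoidHom.mem_range.2 ⟨s, rfl⟩) h2 h3
  -- the ties
  have htie : ∀ (j : Fin 2) (i : Fin 3), L (a j.succ i) = L (tie (a j.castSucc) i) := by
    intro j i
    apply hinjΦ
    rw [hL, hL]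
    have e := hrel (.r j i)
    have e2 : u (.r j i) * tie (a j.castSucc) i * (u (.r j i))⁻¹ = a j.succ i := e
    rw [← e2, h.tl_conj]
  have htl : ∀ (j : Fin 2) , L (a j.succ 0) = L (a j.castSucc 0) + L (a j.castSucc 2) ∧
      L (a j.succ 1) = L (a j.castSucc 0) + L (a j.castSucc 1) + L (a j.castSucc 2) ∧
      L (a j.succ 2) = L (a j.castSucc 1) + (L (a j.castSucc 2) + L (a j.castSucc 2)) := by
    intro j
    have hOj := hO j.castSucc
    refine ⟨?_, ?_, ?_⟩
    · rw [htie]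
      apply hinjΦ
      rw [map_add, hL, hL, hL]
      exact hOj.l0
    · rw [htie]
      apply hinjΦ
      rw [map_add, map_add, hL, hL, hL, hL]
      exact hOj.l1
    · rw [htie]
      apply hinjΦ
      rw [map_add, map_add, hL, hL, hL]
      refine hOj.l2.trans ?_
      ring
  refine parities hDs hPy hMd Γ X hfree1 k
    (fun j i => L (a j (i + 1)) + L (a j (i + 2)) - L (a j i)) har ?_ ?_
  · obtain ⟨c0, c1, c2⟩ := htl 0
    have c0' : L (a 1 0) = L (a 0 0) + L (a 0 2) := c0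
    have c1' : L (a 1 1) = L (a 0 0) + L (a 0 1) + L (a 0 2) := c1
    have c2' : L (a 1 2) = L (a 0 1) + (L (a 0 2) + L (a 0 2)) := c2
    funext i
    fin_cases i
    · show L (a 1 1) + L (a 1 2) - L (a 1 0) =
        (L (a 0 1) + L (a 0 2) - L (a 0 0)) + (L (a 0 1) + L (a 0 2) - L (a 0 0)) +
        (L (a 0 2) + L (a 0 0) - L (a 0 1)) + (L (a 0 0) + L (a 0 1) - L (a 0 2))
      rw [c0', c1', c2']
      abel
    · show L (a 1 2) + L (a 1 0) - L (a 1 1) =
        (L (a 0 1) + L (a 0 2) - L (a 0 0)) + (L (a 0 2) + L (a 0 0) - L (a 0 1))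
      rw [c0', c1', c2']
      abel
    · show L (a 1 0) + L (a 1 1) - L (a 1 2) =
        (L (a 0 2) + L (a 0 0) - L (a 0 1)) + (L (a 0 0) + L (a 0 1) - L (a 0 2))
      rw [c0', c1', c2']
      abel
  · obtain ⟨c0, c1, c2⟩ := htl 1
    have c0' : L (a 2 0) = L (a 1 0) + L (a 1 2) := c0
    have c1' : L (a 2 1) = L (a 1 0) + L (a 1 1) + L (a 1 2) := c1
    have c2' : L (a 2 2) = L (a 1 1) + (L (a 1 2) + L (a 1 2)) := c2
    funext i
    fin_cases i
    · show L (a 2 1) + L (a 2 2) - L (a 2 0) =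
        (L (a 1 1) + L (a 1 2) - L (a 1 0)) + (L (a 1 1) + L (a 1 2) - L (a 1 0)) +
        (L (a 1 2) + L (a 1 0) - L (a 1 1)) + (L (a 1 0) + L (a 1 1) - L (a 1 2))
      rw [c0', c1', c2']
      abel
    · show L (a 2 2) + L (a 2 0) - L (a 2 1) =
        (L (a 1 1) + L (a 1 2) - L (a 1 0)) + (L (a 1 2) + L (a 1 0) - L (a 1 1))
      rw [c0', c1', c2']
      abel
    · show L (a 2 0) + L (a 2 1) - L (a 2 2) =
        (L (a 1 2) + L (a 1 0) - L (a 1 1)) + (L (a 1 0) + L (a 1 1) - L (a 1 2))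
      rw [c0', c1', c2']
      abel

end Pool.Agent.LF.Z
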