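import Pool.Agent.Lib.LF.Z.Base

/-!
# C43 (MP_2c257b_al), block Z (helper56): no free `Z^k`-tree

`Base.lean` (proved): `TT S d` (tree with distances in the subgroup `S` of the ordered field `K`), `Bt d x p y`
(`p` is between `x` and `y`), `Ac S d G` (free isometric action), `TL d g` (translation length), `Ax d g` (axis),
`Fw d g p q` (`p`, `q` on the axis, `q` in front of `p`), `co d g o z` (coordinate on the axis).
Facts: `h.h4`, `h.tri`, `h.nn`, `h.pos`, `h.bt_symm`, `h.uniq`, `h.br`, `h.two`, `h.in_l`, `h.in_r`, `h.lg`, `h.ex`, `h.med`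
(trees), `h.bt`, `h.exax`, `h.tl`, `h.tl_pos`, `h.tl_conj`, `h.tl_inv`, `h.tl_le`, `h.ax2`, `h.ax_conj`, `h.ax_mid`, `h.fw_*`,
`h.co_*` (actions).

Every `S_X` is a statement to be proved in its own file `X.lean` of this folder as `theorem pX : S_X`; used statements
are hypotheses.  The docstrings contain complete proofs.
-/

set_option autoImplicit false

namespace Pool.Agent.LF.Z

/-! ## 1. Actions on trees -/

/-- **Pj** (40 lines).  Projection to an axis.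

Proof. `q` from `h.exax g x` (and `h.tl`): `Bt x q (g x)`, `Bt x (g q) (g x)`, `Bt x q (g q)`, `2 d x q + TL = d x (g x)`, `q ∈ Ax`.
Also `Bt x q (g⁻¹ q)`: `d x (g⁻¹ q) = d (g x) q = d x (g x) - d x q = d x q + TL` and `d q (g⁻¹ q) = d (g q) q = TL`.
Let `y ∈ Ax`.  `h.fw_total`: if `Fw g q y`: `Bt q y (g y)`, `Bt q (g q) (g y)` (`fw_bt`, `fw_bt'`); if `y = q` clear.  Otherwise by
`h.two` either `Bt q (g q) y` or `Bt q y (g q)`.  In the first case `h.lg` (`Bt x q (g q)`, ... : `d x y`: by `h4`) directly: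
4-point for `(x, q), (y, g q)`: `d x q + d y (g q)`, `d x y + d q (g q)`, `d x (g q) + d q y = d x q + TL + d q y`; if
`d x (g q) + d q y ≤ d x y + d q (g q)` we are done (`d x q + d q y ≤ d x y`); the other case
`d x (g q) + d q y ≤ d x q + d y (g q)` says `TL + d q y ≤ d y (g q)`, but `d y (g q) < TL + d q y` as `y ≠ q` (by `h.two`:
`d y (g q) = |d q y - TL|`).  If `Fw g y q` the same with `g⁻¹ q` in place of `g q` (`d y (g⁻¹ q) = d (g y) q`, both `y` and `g⁻¹ q`,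
moved by `g`, lie on `[y, g q]`... or use coordinates `co_dist`: `g⁻¹ q` has the coordinate `co q - TL`). -/
def S_Pj : Prop := ∀ (K X G : Type) [Field K] [LinearOrder K] [IsStrictOrderedRing K] [Group G]
  [MulAction G X] [Nonempty X] (S : AddSubgroup K) (d : X → X → K), Ac S d G →
  ∀ (g : G) (x : X), g ≠ 1 → ∃ q ∈ Ax d g, Bt d x q (g • x) ∧
    2 * d x q + TL d g = d x (g • x) ∧ ∀ y ∈ Ax d g, Bt d x q y

/-- **Mx** (120 lines).  `l(g) + l(h) ≤ max (l(g h)) (l(g h⁻¹))`.  (Uses `S_Pj`.)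

Proof. BRIDGE: let `p₀ ∈ Ax g` (`h.exax`), `q` the projection of `p₀` to `Ax h`, `p` the projection of `q` to `Ax g` (`S_Pj`).  Then
`Bt q p x` for all `x ∈ Ax g`, and `Bt p q y` for all `y ∈ Ax h`: `Bt p₀ q y` and `Bt q p p₀` give
`d p₀ p + d p q + d q y = d p₀ y ≤ d p₀ p + d p y`.  The axes are invariant under `g`, `g⁻¹`, `h`, `h⁻¹`.  `M = TL (g h)`;
`h.tl (g h) z` for a point `z`: it is enough to show `d z (gh z) ≥ TL g + TL h` and `Bt z (gh z) (ghgh z)`.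
(I) `p ≠ q`; `z = q`.  (a) `Bt q p (g p)`, (b) `Bt p (g p) (g q)` (`g` applied to `Bt (g⁻¹ p) p q`), (c) `Bt (g p) (g q) (g h q)`
(`g` applied to `Bt p q (h q)`), (d) `Bt (g q) (g h q) (g h p)` (`g h` applied to `Bt (h⁻¹ q) q p`).  `h.lg`: (a), (b), `p ≠ g p`:
`Bt q (g p) (g q)`, `Bt q p (g q)`; with (c), `g p ≠ g q`: `Bt q (g q) (g h q)`; with (d), `g q ≠ g h q`: `Bt q (g h q) (g h p)`;
`h.in_l`: `Bt q p (g h q)`, apply `g h`: `Bt (g h q) (g h p) (g h g h q)`, `g h q ≠ g h p`: `h.lg`: `Bt q (g h q) (g h g h q)`.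
`d q (g h q) = d q p + d p (g p) + d (g p) (g q) + d (g q) (g h q) ≥ TL g + TL h`.
(II) `p = q = o` on both axes.  For every point `w`: `Bt w o (h o) ∨ Bt w o (h⁻¹ o)` (`h4 w o (h o) (h⁻¹ o)`, `d (h o) (h⁻¹ o) = 2 TL h`),
the same for `g`.  With `a₁ = Bt (g o) o (h o)`, `a₂ = Bt (g o) o (h⁻¹ o)`, `a₃ = Bt (g⁻¹ o) o (h o)`, `a₄ = Bt (g⁻¹ o) o (h⁻¹ o)`:
`a₁ ∨ a₂`, `a₃ ∨ a₄`, `a₁ ∨ a₃`, `a₂ ∨ a₄`, so `a₂ ∧ a₃` or `a₁ ∧ a₄`.  If `a₂ ∧ a₃`: `Bt o (g o) (g h o)` (`g` applied to `a₃`),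
`Bt (g o) (g h o) (g h g o)` (`g h` applied to `Bt (h⁻¹ o) o (g o)`), `Bt (g h o) (g h g o) (g h g h o)`; `h.lg` twice
(`g o ≠ g h o`, `g h o ≠ g h g o`): `Bt o (g h o) (g h g h o)`, so `TL (g h) = TL g + TL h`.  If `a₁ ∧ a₄`: the same with `h⁻¹`. -/
def S_Mx : Prop := ∀ (K X G : Type) [Field K] [LinearOrder K] [IsStrictOrderedRing K] [Group G]
  [MulAction G X] [Nonempty X] (S : AddSubgroup K) (d : X → X → K), Ac S d G →
  ∀ g k : G, g ≠ 1 → k ≠ 1 → TL d g + TL d k ≤ max (TL d (g * k)) (TL d (g * k⁻¹))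

/-- **Ov** (80 lines).  Elements with the same translation length, whose quotient has a small one, have a common segment.
(Uses `S_Pj`.)

Proof. `L = TL P = TL Q`, `m = TL (Q⁻¹ P)`.  `o ∈ Ax (Q⁻¹ P)` (`h.exax`): `d (P o) (Q o) = d o (Q⁻¹ P o) = m`.  Projections `p`, `q` of `o` to
`Ax P`, `Ax Q` (`S_Pj`), `α = d o p`, `γ = d o q`: `d o (P o) = L + 2 α`, `d o (Q o) = L + 2 γ`, `|α - γ| ≤ m / 2` (triangle
inequality).  `c = (d o (P o) + d o (Q o) - d (P o) (Q o)) / 2 = α + γ + L - m / 2 ∈ S` (`gpS`).  `s = max α γ`,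
`t = min c (min (L + α) (L + γ))`, both in `S`; `t - s ≥ L - m / 2 > 0` (cases, `linarith`).  `x`, `y` the points of `[o, P o]` at the distances
`s`, `t` from `o` (`h.ex`); they are on `[o, Q o]` (`h.br`).  `P p` is on `[o, P o]` at distance `α + L` (projection: `Bt o p (P p)` as
`P p ∈ Ax P`, and `d (P p) (P o) = α`).  So `Bt p x (P p)`, `Bt p y (P p)`, `Bt p x y` (`h.two`: positions `α ≤ s ≤ t ≤ α + L`), `Fw P p (P p)`
(`fw_smul`), `h.fw_mid` twice: `Fw P x y`.  The same for `Q`.  `d x y = t - s`.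
If `d x y ≥ L`: `co` coordinates or `h.two`: `Fw P x y` and `L ≤ d x y` give `Bt x (P x) y` with `d x (P x) = L` (on `[x, P y]`), the same for
`Q`; so `P x = Q x` (`h.uniq`), `Q⁻¹ P` fixes `x`, `Q⁻¹ P = 1`: contradiction. -/
def S_Ov : Prop := ∀ (K X G : Type) [Field K] [LinearOrder K] [IsStrictOrderedRing K] [Group G]
  [MulAction G X] [Nonempty X] (S : AddSubgroup K) (d : X → X → K), Ac S d G →
  ∀ P Q : G, P ≠ 1 → P ≠ Q → TL d Q = TL d P → TL d (Q⁻¹ * P) < 2 * TL d P →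
    ∃ x y : X, Fw d P x y ∧ Fw d Q x y ∧ TL d P - TL d (Q⁻¹ * P) / 2 ≤ d x y ∧ d x y < TL d P

/-- **Sg** (150 lines).  Translation on the common segment of the axes of `a b` and `b a`.

Proof. `P = a b`, `Q = b a`; `b` maps `Ax P` to `Ax Q` and `a` maps `Ax Q` to `Ax P`, with the directions (`h.ax_conj`, `h.fw_conj`:
`b P b⁻¹ = Q`, `a Q a⁻¹ = P`).  `L = TL P = TL Q`.  `b x`, `b y ∈ Ax Q`, `Fw Q (b x) (b y)`.
CLAIM: if `Fw Q x (b x)`, then `TL b = d x (b x)` and `Fw b x y`; if `Fw Q (b x) x`, then `TL b = d x (b x)`.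
First case: `e = d x (b x) > 0`; `r = min (d x y) e`, `z` the point of `[x, y]` at distance `r` from `x`; with the coordinates of `Ax Q`
(origin `x`) `z` is also on `[x, b x]`, and `b z` is on `[b x, b y]`.  `Bt x (b x) (b z)` (coordinates `0`, `e`, `e + r`), `Bt (b x) (b z) (b b x)` (`b` applied to
`Bt x z (b x)`), `b x ≠ b z`: `h.lg`: `d x (b b x) = 2 e`, so `TL b = e` (`h.tl`).  `y` and `b y` have the coordinates `δ = d x y` and `e + δ`:
`d y (b y) = e`, `d x (b y) = e + δ`: `Fw b x y`.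
Second case: coordinates of `b x`, `x`, `b y`, `y`: `-e`, `0`, `δ - e`, `δ`; `z` the point of `[y, x]` at distance `r = min δ e` from `y`: coordinate
`δ - r`; it is on `[y, b y]`; `b z` has the coordinate `δ - r - e`; `Bt y (b y) (b z)`, `Bt (b y) (b z) (b b y)`, `h.lg`: `d y (b b y) = 2 e`, and
`d y (b y) = e`.
The same for `a` with `Ax P`: if `Fw P x (a x)` then `TL a = d x (a x)` and `Fw a x y`, if `Fw P (a x) x` then `TL a = d x (a x)`.
(It is the CLAIM for `(b, a)` in place of `(a, b)`.)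
Coordinates on `Ax P`, origin `x`: `a b x = P x` has the coordinate `L`; `a x` has the coordinate `± TL a`; `a` preserves directed distances, so the
coordinate of `a (b x)` is the coordinate of `a x` plus (`± TL b`, the coordinate of `b x` on `Ax Q`).  So `± TL a ± TL b = L`, with the
signs of the cases, and `L > 0`. -/
def S_Sg : Prop := ∀ (K X G : Type) [Field K] [LinearOrder K] [IsStrictOrderedRing K] [Group G]
  [MulAction G X] [Nonempty X] (S : AddSubgroup K) (d : X → X → K), Ac S d G →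
  ∀ (a b : G) (x y : X), a ≠ 1 → b ≠ 1 → a * b ≠ 1 → x ≠ y → Fw d (a * b) x y →
    Fw d (b * a) x y → (TL d a + TL d b = TL d (a * b) ∧ Fw d a x y ∧ Fw d b x y) ∨
      TL d b = TL d (a * b) + TL d a ∨ TL d a = TL d (a * b) + TL d b

/-- **Pr** (120 lines).  Products of elements which translate a segment in the same direction.

Proof. (1) `z` the point of `[x, y]` at distance `min (d x y) (min (TL a) (TL b))` from `x`; `z ≠ x`; `z ∈ [x, a x]`, `z ∈ [x, b x]` (coordinates, or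
`fw_bt`, `fw_bt'` and `h.two`).  `Bt (a⁻¹ x) x z` (`a` applied gives `Bt x (a x) (a z)`, `fw_bt'`).
`Bt x (a x) (a z)`, `Bt (a x) (a z) (a b x)`, `h.lg`: `Bt x (a x) (a b x)`, so `d x (a b x) = TL a + TL b`.
(2) `Bt x (a b x) (a b a b x)`: `Bt (a⁻¹ x) x z` and `Bt x z (b x)` give `Bt (a⁻¹ x) x (b x)`; `Bt x (b x) (b z)`; `h.lg` (`x ≠ b x`):
`Bt (a⁻¹ x) (b x) (b z)`; apply `a`: `Bt x (a b x) (a b z)`.  `Bt x z (a b x)` (`h.in_l`: `Bt x z (a x)`, `Bt x (a x) (a b x)`); apply `a b`: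
`Bt (a b x) (a b z) (a b a b x)`; `h.lg`.  So `TL (a b) = TL a + TL b`.
(3) Apply (1) to `b⁻¹`, `a⁻¹` and the segment `(y, x)`: `Fw a⁻¹ y x` (if `Fw a x y`: `d y (a⁻¹ x) = d (a y) x`); it gives
`d y (b⁻¹ a⁻¹ y) = TL a + TL b`, so `y ∈ Ax (a b)`; `x ∈ Ax (a b)` by (1).
(4) `h.fw_total`: `Fw (a b) x y`, or `Fw (a b) y x`: then `d y (a b x) = d y x + TL (a b)`, so `Bt y x (a b x)`, but `z` is on `[x, y]` and on
`[x, a b x]`: `d y (a b x) ≤ d y z + d z (a b x) = d y x + TL (a b) - 2 d x z`: contradiction. -/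
def S_Pr : Prop := ∀ (K X G : Type) [Field K] [LinearOrder K] [IsStrictOrderedRing K] [Group G]
  [MulAction G X] [Nonempty X] (S : AddSubgroup K) (d : X → X → K), Ac S d G →
  ∀ (a b : G) (x y : X), a ≠ 1 → b ≠ 1 → x ≠ y → Fw d a x y → Fw d b x y →
    TL d (a * b) = TL d a + TL d b ∧ Fw d (a * b) x y

/-- **Tr** (150 lines).  Three axes which pairwise have common directed segments of length at least `σ` have a common directed segment of
length at least `σ`.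

Proof. `o` the median of `x₁, x₂, x₃` (`h.med`): it is on the three axes (`h.ax_mid`).  Coordinates `κ_a = co d a o`, `κ_b`, `κ_c`, `κ (o) = 0`.
(1) `κ_a = κ_b` on `Ax a ∩ Ax b` (the same for the other pairs): `α = κ_a x₁ < α' = κ_a y₁`, `β = κ_b x₁ < β' = κ_b y₁` (`co_fw`), `|α| = |β|`,
`|α'| = |β'|` (distances from `o`), `α' - α = β' - β`; so `α = β`, `α' = β'` (cases of `abs_eq_abs`; `linarith`); one of `α`, `α'` is not zero;
for `z` on both axes `|κ_a z| = |κ_b z|`, `|κ_a z - α| = |κ_b z - α|`, `|κ_a z - α'| = |κ_b z - α'|`: so `κ_a z = κ_b z`.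
(2) Let `g₁ = max (κ_a y₁) 0`, `h₁ = max (-κ_a x₁) 0`, `Y₁ = y₁` if `κ_a y₁ ≥ 0`, `o` else (so `κ_a Y₁ = g₁`, `Y₁` on both axes), `X₁` in the same
way (`κ_a X₁ = -h₁`); the same for the pairs 2 and 3; `g_i + h_i ≥ κ y_i - κ x_i = d x_i y_i ≥ σ`.
(3) If `g₁ ≤ g₃` then `Y₁ ∈ Ax c`: on `Ax a` the point `Y₁` is between `o` and `Y₃`, both in `Ax c` (`h.ax_mid`; `Bt o Y₁ Y₃` from the coordinates).  In
general: for two of the three pairs, the `Y` of the smaller `g` is on all three axes.  So there is a point `Y` on the three axes with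
`κ Y = G` the second largest of `g₁, g₂, g₃` (at least two of the `g_i` are `≤ G`), and `X` with `κ X = -H`, `H` the second largest of the
`h_i`.  There is `i` with `g_i ≤ G`, `h_i ≤ H`, so `G + H ≥ σ`.
(4) `Fw a X Y`, ... by `co_le` (`-H ≤ 0 ≤ G`), `d X Y = G + H` (`co_fw`). -/
def S_Tr : Prop := ∀ (K X G : Type) [Field K] [LinearOrder K] [IsStrictOrderedRing K] [Group G]
  [MulAction G X] [Nonempty X] (S : AddSubgroup K) (d : X → X → K), Ac S d G →
  ∀ (a b c : G) (x₁ y₁ x₂ y₂ x₃ y₃ : X) (σ : K), a ≠ 1 → b ≠ 1 → c ≠ 1 →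
    x₁ ≠ y₁ → x₂ ≠ y₂ → x₃ ≠ y₃ → Fw d a x₁ y₁ → Fw d b x₁ y₁ → Fw d b x₂ y₂ → Fw d c x₂ y₂ →
    Fw d a x₃ y₃ → Fw d c x₃ y₃ → σ ≤ d x₁ y₁ → σ ≤ d x₂ y₂ → σ ≤ d x₃ y₃ →
    ∃ x y : X, Fw d a x y ∧ Fw d b x y ∧ Fw d c x y ∧ σ ≤ d x y

/-- **Fn** (40 lines).  The parametrisation of a segment.

Proof. `f s` = a point of `[x, y]` at distance `s` from `x` if `s ∈ S`, `0 ≤ s ≤ d x y` (`h.ex`, choice), `x` else.  Let `Fw g x y`, `l = TL g`.
`Fw g x (f s)`, `Fw g x (f (s + l))` (`fw_mid`).  `g • f s` and `f (s + l)` are on the axis and have the same coordinate (`co`, origin `x`: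
`s + l`; `co_fw`, `co_smul`), so they are equal (`co_inj`). -/
def S_Fn : Prop := ∀ (K X G : Type) [Field K] [LinearOrder K] [IsStrictOrderedRing K] [Group G]
  [MulAction G X] [Nonempty X] (S : AddSubgroup K) (d : X → X → K), Ac S d G →
  ∀ x y : X, ∃ f : K → X, ∀ g : G, g ≠ 1 → Fw d g x y → ∀ s ∈ S, 0 ≤ s → s + TL d g ≤ d x y →
    g • f s = f (s + TL d g)

/-- the output for one copy: the lengths of the ties, and the Arnoux-Rauzy triple -/
structure Out {K X G : Type} [Field K] [LinearOrder K] [Group G] [MulAction G X] [Nonempty X]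
    (S : AddSubgroup K) (d : X → X → K) (a : Fin 3 → G) : Prop where
  t0 : TL d (a 0) < TL d (a 1) + TL d (a 2)
  t1 : TL d (a 1) < TL d (a 0) + TL d (a 2)
  t2 : TL d (a 2) < TL d (a 0) + TL d (a 1)
  l0 : TL d (a 0 * a 2) = TL d (a 0) + TL d (a 2)
  l1 : TL d (a 0 * a 1 * a 2) = TL d (a 0) + TL d (a 1) + TL d (a 2)
  l2 : TL d (a 1 * a 2 * a 2) = TL d (a 1) + 2 * TL d (a 2)
  fn : ∃ (f : K → X) (Δ : K), Δ ∈ S ∧ TL d (a 0) + TL d (a 1) + TL d (a 2) ≤ 2 * Δ ∧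
    ∀ i, ∀ s ∈ S, 0 ≤ s → s + TL d (a i) ≤ Δ → a i • f s = f (s + TL d (a i))

/-- **Cp.** One copy.  (Assembly: `S_Mx`, `S_Ov`, `S_Sg`, `S_Pr`, `S_Tr`, `S_Fn`.) -/
def S_Cp : Prop := ∀ (K X G : Type) [Field K] [LinearOrder K] [IsStrictOrderedRing K] [Group G]
  [MulAction G X] [Nonempty X] (S : AddSubgroup K) (d : X → X → K), Ac S d G →
  ∀ a : Fin 3 → G, (∀ i j, i ≠ j → a i * a j ≠ a j * a i) →
    (∀ z, ∃ u, u * (cm (a (fx z)) (a (fy z)) * a z) * u⁻¹ = a (fx z) * a (fy z)) →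
    (∀ z, ∃ u, u * (cm (a (fx z)) (a (fy z)) * (a z)⁻¹) * u⁻¹ =
      cm (a (fx z)) (a (fy z)) * a z) → Out S d a

/-! ## 2. The frozen axioms -/

/-- the frozen segments -/
def SegF {Λ X : Type} [AddCommGroup Λ] [LinearOrder Λ] (d : X → X → Λ) (S : Set X) (x y : X) :
    Prop :=
  ∃ f : Λ → X, f 0 = x ∧ f (d x y) = y ∧
    (∀ s ∈ Set.Icc (0 : Λ) (d x y), ∀ t ∈ Set.Icc (0 : Λ) (d x y), d (f s) (f t) = |s - t|) ∧
    S = f '' Set.Icc (0 : Λ) (d x y)

/-- the frozen axioms; `Φ` is an embedding into an ordered field (so that `linarith` can be used) -/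
structure Fr {Λ K X : Type} [AddCommGroup Λ] [LinearOrder Λ] [IsOrderedAddMonoid Λ] [Field K]
    [LinearOrder K] [IsStrictOrderedRing K] (Φ : Λ →+ K) (d : X → X → Λ) : Prop where
  mono : StrictMono Φ
  eq : ∀ x y, d x y = 0 ↔ x = y
  symm : ∀ x y, d x y = d y x
  tri : ∀ x y z, d x z ≤ d x y + d y z
  a1 : ∀ x y, ∃ S, SegF d S x y
  a2 : ∀ S T x y z, SegF d S x y → SegF d T y z → S ∩ T = {y} → ∃ a b, SegF d (S ∪ T) a b
  a3 : ∀ S T x y z, SegF d S x y → SegF d T x z → ∃ a b, SegF d (S ∩ T) a b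

/-- **K1** (90 lines).  The common part of two segments with the same origin.

Proof. `0 ≤ d x y` (`2 d x y ≥ d x x = 0`).  Let `S = f '' [0, D]`, `D = d x y`.  For `p = f s` (`s ∈ [0, D]`): `d x p = s`, `d p y = D - s`; for `p, q ∈ S`:
`d p q = |d x p - d x q|`; so two points of `S` with the same distance from `x` are equal.  The same for `T`.  By `a3` `S ∩ T` is a segment from `a`
to `b`; `a, b, x ∈ S ∩ T` (`x = f 0`), `d a x + d x b = d a b` (as for `S`: points of the segment `S ∩ T`) `= |d x a - d x b|`.  If `d x a ≤ d x b`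
then `d x a = 0`, `a = x`, and we take `w = b`; otherwise `b = x` and `w = a`.  In both cases: every `p ∈ S ∩ T` has `d x p ≤ d x w`, and for
every `0 ≤ s ≤ d x w` there is `p ∈ S ∩ T` with `d x p = s`.  So if `p ∈ S` and `d x p ≤ d x w`, there is `p' ∈ S ∩ T` with the same distance, and
`p = p' ∈ T`.  The same for `p ∈ T`.  (Inequalities in `Λ`: apply `Φ`, `hF.mono.le_iff_le`, `map_add`, `linarith`.) -/
def S_K1 : Prop := ∀ (Λ K X : Type) [AddCommGroup Λ] [LinearOrder Λ] [IsOrderedAddMonoid Λ]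
  [Field K] [LinearOrder K] [IsStrictOrderedRing K] (Φ : Λ →+ K) (d : X → X → Λ), Fr Φ d →
  ∀ (S T : Set X) (x y z : X), SegF d S x y → SegF d T x z → ∃ w, w ∈ S ∧ w ∈ T ∧
    (∀ p ∈ S, (p ∈ T ↔ d x p ≤ d x w)) ∧ ∀ p ∈ T, (p ∈ S ↔ d x p ≤ d x w)

/-- **K2** (120 lines).  The median.  (Uses `S_K1`.)

Proof. `w` from K1.  `S' = {p ∈ S | d x w ≤ d x p}`, `T' = {p ∈ T | d x w ≤ d x p}`.  `SegF S' y w` with `s ↦ f (D - s)` (`d y w = D - d x w`), `SegF T' w z` with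
`s ↦ f' (s + d x w)`.  `S' ∩ T' = {w}` (by K1 `d x p ≤ d x w`; two points of `S` at the same distance are equal).  By `a2` `U = S' ∪ T'` is a segment
from `a` to `b`; `κ p = d a p`: `d p q = |κ p - κ q|` for `p, q ∈ U`, and points of `U` with the same `κ` are equal.  If `y = w` or `z = w` clear.  If
`κ y - κ w` and `κ z - κ w` have different signs: `d y z = |κ y - κ z| = d y w + d w z`.  Let both be positive (both negative is the same) and
`κ y ≤ κ z` (the other case is the same with `S'`).  There is `q ∈ T'` with `d w q = d w y ≤ d w z`, `d q z = d w z - d w q`.  `κ q = κ w ± d w y`; with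
`-` we get `d q z = |κ z - κ q| = d w z + d w y`: contradiction (`d w y > 0`).  So `κ q = κ y`, `q = y ∈ S' ∩ T'`, `y = w`: contradiction. -/
def S_K2 : Prop := ∀ (Λ K X : Type) [AddCommGroup Λ] [LinearOrder Λ] [IsOrderedAddMonoid Λ]
  [Field K] [LinearOrder K] [IsStrictOrderedRing K] (Φ : Λ →+ K) (d : X → X → Λ), Fr Φ d →
  ∀ (S T : Set X) (x y z : X), SegF d S x y → SegF d T x z → ∃ w, w ∈ S ∧ w ∈ T ∧
    (∀ p ∈ S, (p ∈ T ↔ d x p ≤ d x w)) ∧ (∀ p ∈ T, (p ∈ S ↔ d x p ≤ d x w)) ∧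
    d x w + d w y = d x y ∧ d x w + d w z = d x z ∧ d y w + d w z = d y z

/-- **Fz** (80 lines).  The frozen axioms give a tree in the sense of `TT`.  (Uses `S_K2`.)

Proof. `mem`: range.  `eq`, `self`, `symm`: clear.  `pt`: `s = Φ σ`, `0 ≤ σ ≤ d x y`, `p = f σ` for a segment (`a1`).  `gpS`: `w` from K2:
`d x y + d x z - d y z = 2 d x w`, so the value is `Φ (d x w)`.  `hyp`: for base `x` and points `y, z, u` with segments `S_y`, `S_z`, `S_u` from
`x`; K2 for `(S_y, S_u)`: `w₁`, for `(S_u, S_z)`: `w₂`, for `(S_y, S_z)`: `w₃`.  If `d x w₁ ≤ d x w₂`: `w₁ ∈ S_u`, so `w₁ ∈ S_z`, so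
`d x w₁ ≤ d x w₃`; if `d x w₂ ≤ d x w₁`: `w₂ ∈ S_u`, `w₂ ∈ S_y`, so `d x w₂ ≤ d x w₃`.  With `2 d x w₃ = d x y + d x z - d y z`, ... this is the
4-point inequality `d y z + d x u ≤ max (d y u + d x z) (d u z + d x y)`. -/
def S_Fz : Prop := ∀ (Λ K X : Type) [AddCommGroup Λ] [LinearOrder Λ] [IsOrderedAddMonoid Λ]
  [Field K] [LinearOrder K] [IsStrictOrderedRing K] (Φ : Λ →+ K) (d : X → X → Λ), Fr Φ d →
  TT Φ.range (fun x y => Φ (d x y))

/-- **Ph** (80 lines).  `Z^k` with the lexicographic order embeds into an ordered field.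

Proof. `Φ a = ∑ i, (a i) * ω ^ (k - 1 - i)`, `ω = Hyperreal.omega`.  An additive map is strictly monotone if `0 < Φ a` for `0 < a`: let `i` be the first
index with `a i ≠ 0` (`Pi.toLex`, `Pi.Lex`), so `a i ≥ 1`; let `|a j| ≤ M` (`M : ℕ`) for all `j`; the terms with `j > i` are bounded by
`M ω ^ (k - 2 - i)`, their sum by `k M ω ^ (k - 2 - i) < ω ^ (k - 1 - i)` since `ω > k M`.  (Or: `Φ a` = the germ of
`n ↦ ∑ i, a i * n ^ (k - 1 - i)`, which is eventually positive; or induction on `k`.)  Any ordered field in `Type` is fine. -/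
def S_Ph : Prop := ∀ k : ℕ, ∃ (K : Type) (_ : Field K) (_ : LinearOrder K)
  (_ : IsStrictOrderedRing K) (Φ : Lex (Fin k → ℤ) →+ K), StrictMono Φ

/-! ## 3. The descent -/

/-- an Arnoux-Rauzy triple with (doubled) parameter `y` -/
def AR (Γ X : Type) {Λ : Type} [AddCommGroup Λ] [LinearOrder Λ] [Group Γ] [MulAction Γ X]
    (y : Fin 3 → Λ) : Prop :=
  ∃ (g : Fin 3 → Γ) (l : Fin 3 → Λ) (Δ : Λ) (f : Λ → X),
    Function.Injective (FreeGroup.lift g : FreeGroup (Fin 3) →* Γ) ∧ (∀ i, 0 < l i) ∧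
    (∀ i, 0 < y i) ∧ (∀ i, y i = l (i + 1) + l (i + 2) - l i) ∧ l 0 + l 1 + l 2 ≤ Δ + Δ ∧
    ∀ i s, 0 ≤ s → s + l i ≤ Δ → g i • f s = f (s + l i)

/-- **Fa** (50 lines).  A Nielsen automorphism of the free group.

Proof. `g' m = if m = i then g i else (g i)⁻¹ * g m`.  `θ = FreeGroup.lift (fun m => if m = i then of i else (of i)⁻¹ * of m)` and
`θ' = FreeGroup.lift (fun m => if m = i then of i else of i * of m)` are inverse to each other (`FreeGroup.ext_hom`), and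
`lift g' = (lift g).comp θ`. -/
def S_Fa : Prop := ∀ (Γ : Type) [Group Γ] (g : Fin 3 → Γ) (i : Fin 3),
  Function.Injective (FreeGroup.lift g : FreeGroup (Fin 3) →* Γ) →
  Function.Injective (FreeGroup.lift (fun m => if m = i then g i else (g i)⁻¹ * g m) :
    FreeGroup (Fin 3) →* Γ)

/-- **Fc** (50 lines).  Non commuting elements.

Proof. Transport to `FreeGroup (Fin 3)` by injectivity (`FreeGroup.lift_apply_of`), and there compare reduced words (`decide` after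
`FreeGroup.toWord`, or a homomorphism `FreeGroup.lift` to `Equiv.Perm (Fin 3)` or `Equiv.Perm (Fin 4)`, with `decide`; `fin_cases i`). -/
def S_Fc : Prop := ∀ (Γ : Type) [Group Γ] (g : Fin 3 → Γ),
  Function.Injective (FreeGroup.lift g : FreeGroup (Fin 3) →* Γ) →
  (∀ i j, i ≠ j → g i * g j ≠ g j * g i) ∧
  ∀ i, ((g i)⁻¹ * g (i + 1)) * ((g i)⁻¹ * g (i + 2)) ≠ ((g i)⁻¹ * g (i + 2)) * ((g i)⁻¹ * g (i + 1))

/-- **Ds** (120 lines).  The descent step.  (Uses `S_Fa`, `S_Fc`.)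

Proof. Let `i` be an index with `l i` minimal, `j = i + 1`, `k = i + 2`; `D = (g i)⁻¹ g j`, `E = (g i)⁻¹ g k`.  For `0 ≤ s`, `s + l j ≤ Δ`:
`g j • f s = f (s + l j) = g i • f (s + l j - l i)` (as `0 ≤ s + l j - l i`), so `D • f s = f (s + (l j - l i))`; the same for `E`.
If `l j + l k - l i ≤ Δ`: `D E • f 0 = D • f (l k - l i) = f (l j + l k - 2 l i) = E D • f 0` (`l j ≤ l j + l k - l i ≤ Δ`, ...), so `(E D)⁻¹ D E` fixes
`f 0` and `D E = E D`, against `S_Fc`.  So `Δ < l j + l k - l i`.  Put `g' m = if m = i then g i else (g i)⁻¹ g m` (`S_Fa`), `l' i = l i`,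
`l' j = l j - l i`, `l' k = l k - l i`, `Δ' = Δ - l i`, `f' = f`, `y' = update y i (y i - y j - y k)`.  `y' i = l j + l k - 3 l i > 0` from
`2 Δ ≥ l i + l j + l k` and `Δ < l j + l k - l i`; `y' j = y j`, `y' k = y k`; `2 l' j = y' i + y' k > 0`, so `l' j > 0`; the same for `k`.
`2 Δ' = 2 Δ - 2 l i ≥ l j + l k - l i = l' i + l' j + l' k`.  The functional equations: `s + l' j ≤ Δ'` iff `s + l j ≤ Δ`.
(`Λ` is a general ordered abelian group: `abel`, `add_le_add`, `linear_combination (norm := abel)` style, or omega-free `sub_nonneg`; the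
three values of `i`: write the step for `i = 0` with general `g`, `l` and rotate, or work with `i`, `i + 1`, `i + 2` and `fin_cases i`.) -/
def S_Ds : Prop := ∀ (Γ X Λ : Type) [AddCommGroup Λ] [LinearOrder Λ] [IsOrderedAddMonoid Λ]
  [Group Γ] [MulAction Γ X], (∀ (g : Γ) (x : X), g • x = x → g = 1) →
  ∀ y : Fin 3 → Λ, AR Γ X y →
    ∃ i, AR Γ X (Function.update y i (y i - y (i + 1) - y (i + 2)))

/-- **Py** (80 lines).  Infinite descent for the leading coordinate.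

Proof. Induction on the natural number `N = (y 0 p).toNat + (y 1 p).toNat + (y 2 p).toNat`.  `y i > 0` and `y i q = 0` for `q < p` give
`y i p ≥ 0` (lexicographic order: otherwise the first non zero coordinate is negative), and `y i p = 2 ^ e * (2 m + 1) ≠ 0`, so `y i p > 0`.  Let
`y' = update y i (y i - y j - y k)` with `P y'`.  `y' i q = 0` for `q < p`, `y' i p = 2 ^ e * (2 (m i - m j - m k - 1) + 1)`, so `y'` satisfies the
hypotheses, so `y' i p > 0`, and `N' < N`. -/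
def S_Py : Prop := ∀ (k : ℕ) (P : (Fin 3 → Lex (Fin k → ℤ)) → Prop),
  (∀ y, P y → ∀ i, 0 < y i) →
  (∀ y, P y → ∃ i, P (Function.update y i (y i - y (i + 1) - y (i + 2)))) →
  ∀ y, P y → ∀ p : Fin k, (∀ q < p, ∀ i, (ofLex (y i)) q = 0) →
    ∀ e : ℕ, ¬ ∀ i, ∃ m : ℤ, (ofLex (y i)) p = 2 ^ e * (2 * m + 1)

/-- the matrix `N` -/
def nn {Λ : Type} [AddCommGroup Λ] (v : Fin 3 → Λ) : Fin 3 → Λ :=
  ![v 0 + v 0 + v 1 + v 2, v 0 + v 1, v 1 + v 2]

/-- **Md** (50 lines).  The dyadic argument.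

Proof. Strong induction on `|v 0| + |v 1| + |v 2|` (`Int.natAbs`).  If all `v i` are even: `v = 2 v'`, `nn v = 2 nn v'`, induction, `e + 1`.  Otherwise
`e = 0`: modulo 2 `nn v = (b + c, a + b, b + c)` and `nn (nn v) = (a + c, a + c, a + c)`: if `a + c` is odd the third one; if `a`, `c` are odd: `b` odd:
the first one, `b` even: the second one; if `a`, `c` are even, `b` is odd: the second one.  (`Int.emod_emod_of_dvd`, `omega`.) -/
def S_Md : Prop := ∀ v : Fin 3 → ℤ, v ≠ 0 → ∃ e : ℕ, (∀ i, ∃ m : ℤ, v i = 2 ^ e * (2 * m + 1)) ∨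
  (∀ i, ∃ m : ℤ, nn v i = 2 ^ e * (2 * m + 1)) ∨ ∀ i, ∃ m : ℤ, nn (nn v) i = 2 ^ e * (2 * m + 1)

end Pool.Agent.LF.Z
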